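import Pool.Agent.H746Z.CREM.Tree

set_option autoImplicit false

/-! Expected values of the majorants. -/

namespace Pool.Agent.H746Z.CREM

open Finset MeasureTheory ProbabilityTheory Real
open scoped NNReal ENNReal

variable {Ω : Type*} [MeasurableSpace Ω] {P : Measure Ω}

/-- A nonnegative random variable with expectation at most `c`. -/
structure Bd (P : Measure Ω) (f : Ω → ℝ) (c : ℝ) : Prop where
  meas : Measurable f
  nn : ∀ ω, 0 ≤ f ω
  cn : 0 ≤ c
  le : ∫⁻ ω, ENNReal.ofReal (f ω) ∂P ≤ ENNReal.ofReal c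

theorem Bd.mono {f : Ω → ℝ} {c d : ℝ} (h : Bd P f c) (hd : c ≤ d) : Bd P f d :=
  ⟨h.meas, h.nn, h.cn.trans hd, h.le.trans (ENNReal.ofReal_le_ofReal hd)⟩

theorem Bd.add {f g : Ω → ℝ} {c d : ℝ} (h : Bd P f c) (h' : Bd P g d) :
    Bd P (fun ω => f ω + g ω) (c + d) where
  meas := h.meas.add h'.meas
  nn ω := add_nonneg (h.nn ω) (h'.nn ω)
  cn := add_nonneg h.cn h'.cn
  le := by
    simp only [ENNReal.ofReal_add (h.nn _) (h'.nn _)]
    rw [lintegral_add_left h.meas.ennreal_ofReal, ENNReal.ofReal_add h.cn h'.cn]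
    exact add_le_add h.le h'.le

theorem Bd.sum {ι : Type*} (F : Finset ι) {f : ι → Ω → ℝ} {c : ι → ℝ}
    (h : ∀ i ∈ F, Bd P (f i) (c i)) : Bd P (fun ω => ∑ i ∈ F, f i ω) (∑ i ∈ F, c i) := by
  classical
  induction F using Finset.induction_on with
  | empty => exact ⟨by simp, by simp, by simp, by simp⟩
  | insert a F ha ih =>
    simp only [Finset.sum_insert ha]
    exact (h a (Finset.mem_insert_self _ _)).add (ih fun i hi => h i (Finset.mem_insert_of_mem hi))

theorem geo (a n : ℕ) : ∑ e ∈ Ico a n, exp (-(((e - a : ℕ) : ℝ) / 2)) ≤ 3 := by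
  rw [Finset.sum_Ico_eq_sum_range]
  simp only [Nat.add_sub_cancel_left]
  have h1 : exp (-(1 / 2)) ≤ 2 / 3 := by
    rw [exp_neg, inv_le_comm₀ (exp_pos _) (by norm_num)]
    have := add_one_le_exp (1 / 2 : ℝ)
    linarith
  have h2 : ∀ k : ℕ, ∑ i ∈ range k, (2 / 3 : ℝ) ^ i = 3 - 3 * (2 / 3) ^ k := by
    intro k
    induction k with
    | zero => simp
    | succ k ih => rw [Finset.sum_range_succ, ih]; ring
  calc _ ≤ ∑ i ∈ range (n - a), (2 / 3 : ℝ) ^ i := by
        refine Finset.sum_le_sum fun i _ => ?_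
        rw [show -((i : ℝ) / 2) = i * (-(1 / 2)) by ring, exp_nat_mul]
        exact pow_le_pow_left₀ (exp_pos _).le h1 _
    _ ≤ 3 := by
        rw [h2]
        have : (0 : ℝ) ≤ (2 / 3) ^ (n - a) := by positivity
        linarith

variable {cls : ℕ → ℝ × ℝ} {v : ℕ → ℝ≥0} {m : ℕ} {Sm : ℝ} {D : List Bool → Ω → ℝ}
  [IsProbabilityMeasure P]

omit [IsProbabilityMeasure P] in
theorem Tree.Smeas {μ : ℕ → ℝ} (hT : Tree P D μ v) {y : List Bool} (i : ℕ) {j : ℕ}
    (hj : j ≤ y.length) : Measurable fun ω => S (fun p => D p ω) i j y :=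
  S_meas (w := []) (fun p _ => hT.meas p) List.nil_prefix (Nat.zero_le _) hj

theorem Tree.B1 (hT : Tree P D (mu cls) v) (hc : Cls cls v m Sm) {i j s : ℕ} {x : List Bool}
    (hij : i ≤ j) (hx : j ≤ x.length) (h : ∀ k ∈ Ico i j, cls k = cls s) (T : ℝ) (hT0 : 0 ≤ T) :
    Bd P (fun ω => max (S (fun p => D p ω) i j x - T) 0)
      (Sm * exp (-T / Sm) * exp (-(((j - i : ℕ) : ℝ) / 2))) := by
  obtain ⟨l, rfl⟩ := Nat.exists_eq_add_of_le hij
  have h0 := hc.pos s
  have h1 := hc.le s
  have hS : 0 < Sm := h0.trans_le h1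
  refine ⟨((hT.Smeas _ hx).sub_const _).max measurable_const, fun _ => le_max_right _ _,
    by positivity, (hT.E1 hc hx h T).trans (ENNReal.ofReal_le_ofReal ?_)⟩
  rw [Nat.add_sub_cancel_left]
  refine mul_le_mul_of_nonneg_right (mul_le_mul h1 (exp_le_exp.2 ?_) (exp_pos _).le hS.le)
    (exp_pos _).le
  rw [neg_div, neg_div, neg_le_neg_iff]
  exact div_le_div_of_nonneg_left hT0 h0 h1

open Classical in
theorem Tree.E4 (hT : Tree P D (mu cls) v) (hc : Cls cls v m Sm) {w : ℕ} (hw : 1 ≤ w)
    (hm : m = w * (16 * w ^ 2)) {s : ℕ} {p : List Bool}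
    (h : ∀ k ∈ Ico p.length (p.length + m), cls k = cls s) (b : Bool) :
    Bd P (fun ω => if psi (fun p => D p ω) m p = 0 then max (D (p ++ [b]) ω) 0 else 0)
      (5 * m * w * Sm * exp (-(w / 2))) := by
  have h0 := hc.pos s
  have h1 := hc.le s
  have hS : 0 < Sm := h0.trans_le h1
  have hw' : (1 : ℝ) ≤ w := by exact_mod_cast hw
  have hm' : (16 : ℝ) ≤ m := by exact_mod_cast hc.big
  have hE := exp_pos (-((w : ℝ) / 2))
  have hA : MeasurableSet {ω | psi (fun p => D p ω) m p = 0} :=
    measurableSet_eq_fun (psi_meas (w := []) (fun p _ => hT.meas p) m p List.nil_prefix)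
      measurable_const
  refine ⟨Measurable.ite hA ((hT.meas _).max measurable_const) measurable_const, fun ω => ?_,
    by positivity, ?_⟩
  · split_ifs
    · exact le_max_right _ _
    · exact le_rfl
  have h2 := hT.E1 hc (i := p.length) (l := 1) (x := p ++ [b]) (s := s) (by simp)
    (fun k hk => h k (by
      have := Finset.mem_Ico.1 hk
      have := hc.big
      exact Finset.mem_Ico.2 ⟨by omega, by omega⟩)) (w * (cls s).1)
  have h3 := hT.E3 hc hw hm h
  have h4 : (p ++ [b]).take (p.length + 1) = p ++ [b] := List.take_of_length_le (by simp)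
  simp only [S_succ, h4] at h2
  calc _ ≤ ∫⁻ ω, ({ω | psi (fun p => D p ω) m p = 0}.indicator
          (fun _ => ENNReal.ofReal (w * (cls s).1)) ω +
        ENNReal.ofReal (max (D (p ++ [b]) ω - w * (cls s).1) 0)) ∂P := by
        refine lintegral_mono fun ω => ?_
        by_cases hω : psi (fun p => D p ω) m p = 0
        · rw [Set.indicator_of_mem (by exact hω), ← ENNReal.ofReal_add (by positivity)
            (le_max_right _ _)]
          simp only [if_pos hω]
          refine ENNReal.ofReal_le_ofReal (max_le ?_ (by positivity))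
          linarith [le_max_left (D (p ++ [b]) ω - w * (cls s).1) 0]
        · simp [hω]
    _ ≤ ENNReal.ofReal (w * (cls s).1) * ENNReal.ofReal (4 * m * exp (-(w / 2))) +
        ENNReal.ofReal ((cls s).1 * exp (-(w * (cls s).1) / (cls s).1) * exp (-((1 : ℕ) / 2))) := by
        rw [lintegral_add_left (Measurable.indicator measurable_const hA),
          lintegral_indicator_const hA]
        exact add_le_add (mul_le_mul_right h3 _) h2
    _ ≤ _ := by
        rw [← ENNReal.ofReal_mul (by positivity), ← ENNReal.ofReal_add (by positivity)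
          (by positivity)]
        refine ENNReal.ofReal_le_ofReal ?_
        have h5 : exp (-(w * (cls s).1) / (cls s).1) * exp (-(((1 : ℕ) : ℝ) / 2)) ≤
            exp (-(w / 2)) := by
          rw [← exp_add, exp_le_exp]
          have : -(w * (cls s).1) / (cls s).1 = -w := by field_simp
          rw [this]
          push_cast
          linarith
        have h6 : (cls s).1 * exp (-(w * (cls s).1) / (cls s).1) * exp (-(((1 : ℕ) : ℝ) / 2)) ≤
            Sm * exp (-(w / 2)) := by
          rw [mul_assoc]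
          exact mul_le_mul h1 h5 (by positivity) hS.le
        have h7 : w * (cls s).1 * (4 * m * exp (-(w / 2))) ≤ w * Sm * (4 * m * exp (-(w / 2))) := by
          gcongr
        have h8 : 1 * (Sm * exp (-(w / 2))) ≤ (m * w) * (Sm * exp (-(w / 2))) :=
          mul_le_mul_of_nonneg_right (by nlinarith) (by positivity)
        nlinarith

theorem Tree.beta1 (hT : Tree P D (mu cls) v) (hc : Cls cls v m Sm) {w : ℕ} (hw : 1 ≤ w)
    (hm : m = w * (16 * w ^ 2)) {s : ℕ} (h : ∀ k ∈ Ico s (s + 3 * m), cls k = cls s)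
    (x : List Bool) :
    Bd P (fun ω => G1 (fun p => D p ω) m s x + G2 (fun p => D p ω) cls m s x)
      (32 * m ^ 2 * w * Sm * exp (-(w / 2))) := by
  classical
  have hS : 0 < Sm := (hc.pos 0).trans_le (hc.le 0)
  have hw' : (1 : ℝ) ≤ w := by exact_mod_cast hw
  have hm' : (16 : ℝ) ≤ m := by exact_mod_cast hc.big
  have hwm : (w : ℝ) ≤ m := by
    have : w ≤ m := by rw [hm]; exact Nat.le_mul_of_pos_right _ (by positivity)
    exact_mod_cast this
  have hE := exp_pos (-((w : ℝ) / 2))
  have h1 : Bd P (fun ω => G1 (fun p => D p ω) m s x) (20 * m ^ 2 * w * Sm * exp (-(w / 2))) := by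
    refine (Bd.sum _ fun k hk => Bd.sum _ fun b _ => hT.E4 hc hw hm (s := s) ?_ b).mono ?_
    · intro i hi
      have h2 := Finset.mem_Ico.1 hk
      have h3 := Finset.mem_Ico.1 hi
      rw [List.length_take] at h3
      exact h i (Finset.mem_Ico.2 ⟨by omega, by omega⟩)
    · simp only [Finset.sum_const, Nat.card_Ico, nsmul_eq_mul, Finset.card_univ, Fintype.card_bool]
      have h2 : ((min (s + 2 * m) x.length - s : ℕ) : ℝ) ≤ 2 * m := by
        have : min (s + 2 * m) x.length - s ≤ 2 * m := by omega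
        exact_mod_cast this
      calc _ ≤ (2 * m) * (((2 : ℕ) : ℝ) * (5 * m * w * Sm * exp (-(w / 2)))) := by gcongr
        _ = _ := by push_cast; ring
  have h2 : Bd P (fun ω => G2 (fun p => D p ω) cls m s x)
      (12 * m ^ 2 * w * Sm * exp (-(w / 2))) := by
    refine (Bd.sum (c := fun _ => 6 * Sm * exp (-(w / 2))) _ fun j hj => ?_).mono ?_
    · have hj' := Finset.mem_range.1 hj
      refine (Bd.sum (c := fun e => 2 * Sm * exp (-(w / 2)) *
        exp (-(((e - (s + 2 * m) : ℕ) : ℝ) / 2))) _ fun e he => ?_).mono ?_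
      · obtain ⟨he1, he2⟩ := Finset.mem_filter.1 he
        obtain ⟨he3, he4⟩ := Finset.mem_Ico.1 he1
        refine (Bd.sum (c := fun _ => Sm * exp (-(w / 2)) *
          exp (-(((e - (s + 2 * m) : ℕ) : ℝ) / 2))) _ fun b _ => ?_).mono (le_of_eq ?_)
        · have := hT.B1 hc (i := s + j) (j := e + 1) (s := s) (x := x.take e ++ [b]) (by omega)
            (by simp; omega) (fun k hk => he2 k (by
              have := Finset.mem_Ico.1 hk
              exact Finset.mem_Icc.2 ⟨by omega, by omega⟩)) 0 le_rfl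
          simp only [sub_zero, neg_zero, zero_div, exp_zero, mul_one] at this
          refine this.mono ?_
          rw [mul_assoc, ← exp_add]
          refine mul_le_mul_of_nonneg_left (exp_le_exp.2 ?_) hS.le
          have h3 : m + (e - (s + 2 * m)) ≤ e + 1 - (s + j) := by omega
          have h4 : (m : ℝ) + ((e - (s + 2 * m) : ℕ) : ℝ) ≤ ((e + 1 - (s + j) : ℕ) : ℝ) := by
            exact_mod_cast h3
          linarith
        · simp only [Finset.sum_const, Finset.card_univ, Fintype.card_bool, nsmul_eq_mul]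
          push_cast; ring
      · rw [← Finset.mul_sum]
        have h3 := (Finset.sum_le_sum_of_subset_of_nonneg (Finset.filter_subset
          (fun e => ∀ k ∈ Icc s e, cls k = cls s) (Ico (s + 2 * m) x.length))
          (f := fun e => exp (-(((e - (s + 2 * m) : ℕ) : ℝ) / 2)))
          fun _ _ _ => (exp_pos _).le).trans (geo (s + 2 * m) x.length)
        calc _ ≤ 2 * Sm * exp (-(w / 2)) * 3 := by gcongr
          _ = _ := by ring
    · simp only [Finset.sum_const, Finset.card_range, nsmul_eq_mul]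
      push_cast
      have h3 : ((m : ℝ) + 1) ≤ 2 * m ^ 2 * w := by nlinarith
      calc _ ≤ (2 * m ^ 2 * w) * (6 * Sm * exp (-(w / 2))) := by gcongr
        _ = _ := by ring
  exact (h1.add h2).mono (le_of_eq (by ring))

theorem Tree.beta3 (hT : Tree P D (mu cls) v) (hc : Cls cls v m Sm) (N : ℕ) (T : ℝ) (hT0 : 0 ≤ T)
    {s : ℕ} {x : List Bool} (hs : s ≤ x.length) :
    Bd P (fun ω => G3 (fun p => D p ω) cls m N T s x)
      ((m + 7) * exp (3 * m) * (Sm * exp (-T / Sm))) := by
  classical
  have hS : 0 < Sm := (hc.pos 0).trans_le (hc.le 0)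
  have hE : 1 ≤ exp (3 * (m : ℝ)) := one_le_exp (by positivity)
  refine (Bd.add (c := 6 * (Sm * exp (-T / Sm))) (d := (m + 1) * (Sm * exp (-T / Sm) * exp (3 * m)))
    ?_ ?_).mono ?_
  · refine (Bd.sum (c := fun e => 2 * (Sm * exp (-T / Sm)) *
      exp (-(((e - s : ℕ) : ℝ) / 2))) _ fun e he => ?_).mono ?_
    · obtain ⟨he1, he2⟩ := Finset.mem_filter.1 he
      obtain ⟨he3, he4⟩ := Finset.mem_Ico.1 he1
      refine (Bd.sum (c := fun _ => Sm * exp (-T / Sm) *
        exp (-(((e - s : ℕ) : ℝ) / 2))) _ fun b _ => ?_).mono (le_of_eq ?_)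
      · have := hT.B1 hc (i := s) (j := e + 1) (s := s) (x := x.take e ++ [b]) (by omega)
          (by simp; omega) (fun k hk => he2 k (by
            have := Finset.mem_Ico.1 hk
            exact Finset.mem_Icc.2 ⟨by omega, by omega⟩)) T hT0
        refine this.mono (mul_le_mul_of_nonneg_left (exp_le_exp.2 ?_) (by positivity))
        have h3 : e - s ≤ e + 1 - s := by omega
        have h4 : ((e - s : ℕ) : ℝ) ≤ ((e + 1 - s : ℕ) : ℝ) := by exact_mod_cast h3
        linarith
      · simp only [Finset.sum_const, Finset.card_univ, Fintype.card_bool, nsmul_eq_mul]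
        push_cast; ring
    · rw [← Finset.mul_sum]
      have h3 := (Finset.sum_le_sum_of_subset_of_nonneg (Finset.filter_subset
        (fun e => ∀ k ∈ Icc s e, cls k = cls s) (Ico s x.length))
        (f := fun e => exp (-(((e - s : ℕ) : ℝ) / 2)))
        fun _ _ _ => (exp_pos _).le).trans (geo s x.length)
      calc _ ≤ 2 * (Sm * exp (-T / Sm)) * 3 := by gcongr
        _ = _ := by ring
  · refine (Bd.sum (c := fun _ => Sm * exp (-T / Sm) * exp (3 * m)) _ fun j hj => ?_).mono ?_
    · have hj' := Finset.mem_range.1 hj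
      have hx : s + j ≤ (x.take s ++ List.replicate m false).length := by simp; omega
      exact ⟨((hT.Smeas _ hx).neg.sub_const _).max measurable_const, fun _ => le_max_right _ _,
        by positivity, hT.E2 hc hx (by omega) T⟩
    · simp only [Finset.sum_const, Finset.card_range, nsmul_eq_mul]
      have h2 : ((min m (N - s) + 1 : ℕ) : ℝ) ≤ m + 1 := by
        have : min m (N - s) + 1 ≤ m + 1 := by omega
        exact_mod_cast this
      gcongr
  · have h1 : 0 < Sm * exp (-T / Sm) := by positivity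
    nlinarith

end Pool.Agent.H746Z.CREM
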