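import Pool.Agent.H746Z.CREM.Fresh

set_option autoImplicit false

/-! From the Gaussian process to independent increments. -/

namespace Pool.Agent.H746Z.CREM

open Finset MeasureTheory ProbabilityTheory Real
open scoped NNReal ENNReal

/-- Depth of the deepest common ancestor. -/
def lcp (v w : List Bool) : ℕ :=
  Nat.findGreatest (fun k => v.take k = w.take k) (min v.length w.length)

theorem le_lcp {v w : List Bool} {k : ℕ} :
    k ≤ lcp v w ↔ k ≤ v.length ∧ k ≤ w.length ∧ v.take k = w.take k := by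
  constructor
  · intro h
    have h1 : lcp v w ≤ min v.length w.length := Nat.findGreatest_le _
    have h2 : v.take (lcp v w) = w.take (lcp v w) :=
      Nat.findGreatest_spec (P := fun k => v.take k = w.take k) (Nat.zero_le _) rfl
    exact ⟨by omega, by omega, take_of_take h2 h⟩
  · rintro ⟨h1, h2, h3⟩
    exact Nat.le_findGreatest (le_min h1 h2) h3

theorem lcp_comm (v w : List Bool) : lcp v w = lcp w v :=
  eq_of_forall_le_iff fun k => by rw [le_lcp, le_lcp]; tauto

theorem lcp_take (v w : List Bool) (a : ℕ) : lcp (v.take a) w = min a (lcp v w) :=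
  eq_of_forall_le_iff fun k => by
    rw [le_min_iff, le_lcp, le_lcp, List.length_take, le_min_iff, List.take_take]
    constructor
    · rintro ⟨⟨h1, h2⟩, h3, h4⟩
      rw [min_eq_left h1] at h4
      exact ⟨h1, h2, h3, h4⟩
    · rintro ⟨h1, h2, h3, h4⟩
      rw [min_eq_left h1]
      exact ⟨⟨h1, h2⟩, h3, h4⟩

theorem lcp_take_take (v w : List Bool) (a : ℕ) : lcp (v.take a) (w.take a) = min a (lcp v w) := by
  rw [lcp_take, lcp_comm, lcp_take, lcp_comm, ← min_assoc, min_self]

theorem lcp_self (v : List Bool) : lcp v v = v.length :=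
  eq_of_forall_le_iff fun k => by rw [le_lcp]; simp

theorem lcp_drop {p q : List Bool} (h : ¬ p <+: q) : lcp p.dropLast q = lcp p q := by
  rw [List.dropLast_eq_take, lcp_take, min_eq_right]
  by_contra hcon
  have h1 : p.length ≤ lcp p q ∨ p.length = 0 := by omega
  rcases h1 with h1 | h1
  · have := (le_lcp.1 h1).2.2
    rw [List.take_length] at this
    exact h (List.prefix_iff_eq_take.2 this)
  · rw [List.length_eq_zero_iff] at h1
    exact h (h1 ▸ List.nil_prefix)

theorem lcp_drop_self (p : List Bool) : lcp p.dropLast p = p.length - 1 := by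
  rw [List.dropLast_eq_take, lcp_take, lcp_self]
  omega

theorem lcp_nil (q : List Bool) : lcp [] q = 0 := by simp [lcp]

/-- Truncation to depth `N`. -/
def tr (N : ℕ) (p : List Bool) : {v : List Bool // v.length ≤ N} :=
  ⟨p.take N, by rw [List.length_take]; exact min_le_left _ _⟩

theorem tr_val {N : ℕ} (y : {v : List Bool // v.length ≤ N}) : tr N y.1 = y :=
  Subtype.ext (List.take_of_length_le y.2)

variable {Ω : Type*} [mΩ : MeasurableSpace Ω] {P : Measure Ω}

theorem bridge0 {Y : List Bool → Ω → ℝ} (hG : IsGaussianProcess Y P) (hm : ∀ p, Measurable (Y p))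
    (h0 : ∀ p, ∫ ω, Y p ω ∂P = 0) (g : ℕ → ℝ) (hcov : ∀ p q, cov[Y p, Y q; P] = g (lcp p q))
    (c : ℕ → ℝ) :
    Tree P (fun p ω => (if p = [] then Y [] ω else Y p ω - Y p.dropLast ω) - c (p.length - 1))
      (fun k => - c k) (fun k => (g (k + 1) - g k).toNNReal) := by
  classical
  have := hG.isProbabilityMeasure
  let ξ : List Bool → Ω → ℝ := fun p ω => if p = [] then Y [] ω else Y p ω - Y p.dropLast ω
  have hξ0 : ξ [] = Y [] := by ext; simp [ξ]
  have hξ1 : ∀ p, p ≠ [] → ξ p = Y p - Y p.dropLast := fun p hp => by ext; simp [ξ, hp]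
  have hmξ : ∀ p, Measurable (ξ p) := fun p => by
    by_cases hp : p = []
    · rw [hp, hξ0]; exact hm _
    · rw [hξ1 p hp]; exact (hm _).sub (hm _)
  have hL : ∀ p, MemLp (Y p) 2 P := fun p => (hG.hasGaussianLaw_eval p).memLp_two
  have hGξ : IsGaussianProcess (fun (p : (_ : List Bool) × Unit) ω => ξ p.1 ω) P := by
    refine hG.of_isGaussianProcess fun p => ?_
    by_cases hp : p.1 = []
    · exact ⟨{[]},
        { toFun x := x ⟨[], by simp⟩
          map_add' := by simp
          map_smul' := by simp }, by simp [ξ, hp]⟩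
    · exact ⟨{p.1, p.1.dropLast},
        { toFun x := x ⟨p.1, by simp⟩ - x ⟨p.1.dropLast, by simp⟩
          map_add' x y := by simp; abel
          map_smul' c x := by simp; ring }, by simp [ξ, hp]⟩
  have hc0 : ∀ p q, ¬ p <+: q → cov[ξ p, ξ q; P] = 0 := by
    intro p q h
    have hp : p ≠ [] := fun hp => h (hp ▸ List.nil_prefix)
    rw [hξ1 p hp]
    by_cases hq : q = []
    · rw [hq, hξ0, covariance_sub_left (hL _) (hL _) (hL _), hcov, hcov, lcp_comm, lcp_nil,
        lcp_comm, lcp_nil, sub_self]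
    · rw [hξ1 q hq, covariance_sub_sub (hL _) (hL _) (hL _) (hL _), hcov, hcov, hcov, hcov,
        lcp_drop h, lcp_drop fun h' => h (h'.trans (List.dropLast_prefix q))]
      ring
  have hind := hGξ.iIndepFun_of_covariance_eq_zero (S := fun _ : List Bool => Unit)
    (X := fun t _ => ξ t) (fun t _ => (hmξ t).aemeasurable) (by
      intro p q hpq _ _
      by_cases h : p <+: q
      · rw [covariance_comm]
        exact hc0 q p fun h' => hpq (List.IsPrefix.eq_of_length_le h h'.length_le)
      · exact hc0 p q h)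
  refine ⟨hind.comp (fun p f => f () - c (p.length - 1)) fun p => by fun_prop,
    fun p => (hmξ p).sub_const _, fun p hp => ?_⟩
  have h1 : P.map (ξ p) = gaussianReal 0 (g (p.length - 1 + 1) - g (p.length - 1)).toNNReal := by
    rw [(hGξ.hasGaussianLaw_eval ⟨p, ()⟩).map_eq_gaussianReal]
    congr 1
    · show ∫ ω, ξ p ω ∂P = 0
      rw [hξ1 p hp]
      simp only [Pi.sub_apply]
      rw [integral_sub ((hL _).integrable one_le_two) ((hL _).integrable one_le_two), h0, h0,
        sub_self]
    · congr 1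
      show Var[ξ p; P] = _
      have h2 : p.length - 1 + 1 = p.length := by
        have := List.length_pos_iff.2 hp
        omega
      rw [← covariance_self (hmξ p).aemeasurable, hξ1 p hp,
        covariance_sub_sub (hL _) (hL _) (hL _) (hL _), hcov, hcov, hcov, hcov, lcp_self, lcp_self,
        lcp_comm p, lcp_drop_self, List.length_dropLast, h2]
      ring
  have h2 := gaussianReal_map_sub_const (μ := 0)
    (v := (g (p.length - 1 + 1) - g (p.length - 1)).toNNReal) (c (p.length - 1))
  rw [← h1, Measure.map_map (by fun_prop) (hmξ p), zero_sub] at h2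
  exact h2

omit mΩ in
theorem tele (Y : List Bool → Ω → ℝ) (c : ℕ → ℝ) (y : List Bool) (ω : Ω) :
    S (fun p => (if p = [] then Y [] ω else Y p ω - Y p.dropLast ω) - c (p.length - 1)) 0
      y.length y = Y y ω - Y [] ω - ∑ k ∈ range y.length, c k := by
  unfold S
  rw [← Finset.range_eq_Ico]
  have h1 := Finset.sum_range_sub (fun k => Y (y.take k) ω) y.length
  rw [List.take_length, List.take_zero] at h1
  rw [← h1, ← Finset.sum_sub_distrib]
  refine Finset.sum_congr rfl fun k hk => ?_
  have hk' := Finset.mem_range.1 hk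
  have h2 : (y.take (k + 1)).length = k + 1 := by rw [List.length_take]; omega
  have h3 : y.take (k + 1) ≠ [] := fun h => by rw [h] at h2; simp at h2
  have h4 : (y.take (k + 1)).dropLast = y.take k := by
    rw [List.dropLast_eq_take, h2, List.take_take]; simp
  simp only [if_neg h3, h4, h2, Nat.add_sub_cancel]

theorem core2 {cls : ℕ → ℝ × ℝ} {m : ℕ} {Sm : ℝ} {N : ℕ} (hN : 0 < N)
    {X : {v : List Bool // v.length ≤ N} → Ω → ℝ} (hG : IsGaussianProcess X P)
    (hXm : ∀ v, Measurable (X v)) (h0 : ∀ v, ∫ ω, X v ω ∂P = 0) (f : ℕ → ℝ) (hf : f 0 = 0)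
    (hcov : ∀ v w, ∫ ω, X v ω * X w ω ∂P = f (lcp v.1 w.1))
    (hc : Cls cls (fun k => (f (min N (k + 1)) - f (min N k)).toNNReal) m Sm) {w : ℕ} (hw : 1 ≤ w)
    (hm : m = w * (16 * w ^ 2)) (Λ : Finset ℕ)
    (hΛ1 : ∀ s < N, 1 ≤ s → cls (s - 1) ≠ cls s → s ∈ Λ)
    (hΛ2 : ∀ s < N, s ∉ Λ → s + 3 * m ≤ N)
    (hΛ3 : ∀ s < N, s ∉ Λ → ∀ k ∈ Ico s (s + 3 * m), cls k = cls s)
    {U : ℕ → Ω → ℝ} (hU : ∀ i, Measurable (U i))
    (hXU : IndepFun (fun ω v => X v ω) (fun ω i => U i ω) P)
    {q : ℕ → Ω → {v : List Bool // v.length ≤ N}}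
    (hq : ∀ n, @Measurable Ω _ (filtL q X U n) ⊤ (q (n + 1)))
    (M : ℕ) {T R : ℝ} (hT0 : 0 ≤ T) (hR : 0 < R) :
    P.real {ω | ∃ n, 1 ≤ n ∧ n ≤ M ∧ (q n ω).1.length = N ∧
        2 * T * Λ.card + R + ∑ k ∈ range N, (cls k).2 * (cls k).1 ≤ X (q n ω) ω} ≤
      M * (32 * m ^ 2 * w * Sm * exp (-(w / 2)) +
        Λ.card * ((m + 7) * exp (3 * m) * (Sm * exp (-T / Sm)))) / R := by
  classical
  have := hG.isProbabilityMeasure
  let Y : List Bool → Ω → ℝ := fun p => X (tr N p)
  let c : ℕ → ℝ := fun k => (cls k).2 * (cls k).1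
  have hL : ∀ v, MemLp (X v) 2 P := fun p => (hG.hasGaussianLaw_eval p).memLp_two
  have hcv : ∀ p q, cov[Y p, Y q; P] = f (min N (lcp p q)) := fun p q => by
    rw [covariance_eq_sub (hL _) (hL _), h0, h0, mul_zero, sub_zero, ← lcp_take_take]
    exact hcov _ _
  have hT := bridge0 (hG.comp_right (tr N)) (fun p => hXm _) (fun p => h0 _)
    (fun k => f (min N k)) hcv c
  let D : List Bool → Ω → ℝ := fun p ω =>
    (if p = [] then Y [] ω else Y p ω - Y p.dropLast ω) - c (p.length - 1)
  have hY : ∀ y ω, Y y ω = D [] ω + c 0 + S (fun p => D p ω) 0 y.length y +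
      ∑ k ∈ range y.length, c k := fun y ω => by
    rw [tele Y c y ω]
    simp only [D, if_true, List.length_nil]
    ring
  have hfilt : ∀ n, filtL q X U n ≤ filtL (fun n ω => (q n ω).1) Y U n := by
    intro n
    refine sup_le_sup (sup_le_sup (iSup₂_mono fun i _ => ?_) (le_of_eq ?_)) le_rfl
    · rintro _ ⟨E, -, rfl⟩
      refine ⟨Subtype.val '' E, MeasurableSpace.measurableSet_top, ?_⟩
      ext ω
      exact Subtype.val_injective.mem_set_image
    · simp only [Y, tr_val]
  have h1 := core (D := D) (X := Y) (q := fun n ω => (q n ω).1) hT hc hw hm hN Λ hΛ1 hΛ2 hΛ3 hU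
    ?_ ?_ ?_ (fun n ω => (q n ω).2) M hT0 hR
  · refine le_trans (ENNReal.toReal_mono (measure_ne_top _ _) (measure_mono_ae ?_)) h1
    have h2 := ae_eq_integral_of_variance_eq_zero (hL (tr N [])) (by
      rw [← covariance_self (hXm _).aemeasurable]
      exact (hcv [] []).trans (by simp [lcp_nil, hf]))
    filter_upwards [h2] with ω hω
    rintro ⟨n, h3, h4, h5, h6⟩
    refine ⟨n, h3, h4, h5, ?_⟩
    have h7 := tele Y c (q n ω).1 ω
    rw [h5] at h7
    rw [h0] at hω
    have h8 : Y [] ω = 0 := hω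
    have h9 : Y (q n ω).1 ω = X (q n ω) ω := by simp only [Y, tr_val]
    show _ ≤ S (fun p => (if p = [] then Y [] ω else Y p ω - Y p.dropLast ω) - c (p.length - 1)) 0
      N (q n ω).1
    rw [h7, h8, h9]
    linarith
  · rw [IndepFun_iff_Indep] at hXU
    have hYm : ∀ p, Measurable[MeasurableSpace.comap (fun ω v => X v ω) inferInstance] (Y p) :=
      fun p => (measurable_pi_apply (tr N p)).comp (comap_measurable (fun ω v => X v ω))
    refine indep_of_indep_of_le hXU (iSup₂_le fun p _ => Measurable.comap_le ?_)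
      (iSup₂_le fun i _ => Measurable.comap_le ?_)
    · refine Measurable.sub_const ?_ _
      by_cases hp : p = []
      · simp only [hp, if_true]; exact hYm _
      · simp only [hp, if_false]; exact (hYm _).sub (hYm _)
    · exact (measurable_pi_apply i).comp (comap_measurable (fun ω i => U i ω))
  · intro w y hy
    rw [show Y y = fun ω => D [] ω + c 0 + S (fun p => D p ω) 0 y.length y +
      ∑ k ∈ range y.length, c k from funext (hY y)]
    refine Measurable.add_const (Measurable.add (Measurable.add_const (sig_meas D ?_) _) ?_) _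
    · exact fun h => by simpa using h.2
    · refine Finset.measurable_fun_sum _ fun k _ => sig_meas D fun h => hy ?_
      exact ⟨h.1.trans (List.take_prefix _ _), h.2.trans_le (List.take_prefix _ _).length_le⟩
  · intro n E _
    exact hfilt n _ (hq n (MeasurableSpace.measurableSet_top (s := Subtype.val ⁻¹' E)))

end Pool.Agent.H746Z.CREM
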