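import Mathlib

set_option autoImplicit false

/-! Deterministic part: the potential and the piece bounds. -/

namespace Pool.Agent.H746Z.CREM

open Finset

/-- Sum of the edge weights along `x` between levels `i` and `j`. -/
noncomputable def S (D : List Bool → ℝ) (i j : ℕ) (x : List Bool) : ℝ :=
  ∑ k ∈ Ico i j, D (x.take (k + 1))

theorem S_self (D : List Bool → ℝ) (i : ℕ) (x : List Bool) : S D i i x = 0 := by simp [S]

theorem S_add (D : List Bool → ℝ) {i j l : ℕ} (hij : i ≤ j) (hjl : j ≤ l) (x : List Bool) :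
    S D i j x + S D j l x = S D i l x := Finset.sum_Ico_consecutive _ hij hjl

theorem S_succ (D : List Bool → ℝ) (i : ℕ) (x : List Bool) :
    S D i (i + 1) x = D (x.take (i + 1)) := by simp [S]

theorem S_congr (D : List Bool → ℝ) {i j : ℕ} {x y : List Bool} (h : x.take j = y.take j) :
    S D i j x = S D i j y := by
  refine Finset.sum_congr rfl fun k hk => ?_
  have hk' : k + 1 ≤ j := (Finset.mem_Ico.1 hk).2
  have h1 : x.take (k + 1) = (x.take j).take (k + 1) := by
    rw [List.take_take, min_eq_left hk']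
  have h2 : y.take (k + 1) = (y.take j).take (k + 1) := by
    rw [List.take_take, min_eq_left hk']
  rw [h1, h2, h]

/-- The least possible largest drop over the next `k` levels. -/
noncomputable def psi (D : List Bool → ℝ) : ℕ → List Bool → ℝ
  | 0, _ => 0
  | k + 1, p => min (max 0 (psi D k (p ++ [false]) - D (p ++ [false])))
      (max 0 (psi D k (p ++ [true]) - D (p ++ [true])))

theorem psi_nonneg (D : List Bool → ℝ) : ∀ k p, 0 ≤ psi D k p
  | 0, _ => le_rfl
  | _ + 1, _ => le_min (le_max_left _ _) (le_max_left _ _)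

theorem psi_step (D : List Bool → ℝ) (k : ℕ) (p : List Bool) (b : Bool) :
    psi D (k + 1) p ≤ max 0 (psi D k (p ++ [b]) - D (p ++ [b])) := by
  cases b
  · exact min_le_left _ _
  · exact min_le_right _ _

theorem psi_succ (D : List Bool → ℝ) : ∀ k p, psi D k p ≤ psi D (k + 1) p
  | 0, p => psi_nonneg D 1 p
  | k + 1, p => by
    have h1 := psi_succ D k (p ++ [false])
    have h2 := psi_succ D k (p ++ [true])
    show min _ _ ≤ min _ _
    exact min_le_min (max_le_max le_rfl (by linarith)) (max_le_max le_rfl (by linarith))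

theorem psi_mono (D : List Bool → ℝ) (p : List Bool) {k l : ℕ} (h : k ≤ l) :
    psi D k p ≤ psi D l p :=
  monotone_nat_of_le_succ (f := fun k => psi D k p) (fun k => psi_succ D k p) h

theorem take_succ_eq (x : List Bool) {k : ℕ} (hk : k < x.length) :
    x.take (k + 1) = x.take k ++ [x[k]] := by
  rw [List.take_add_one, List.getElem?_eq_getElem hk]; rfl

theorem psi_path (D : List Bool → ℝ) (x : List Bool) :
    ∀ k s, s + k ≤ x.length → ∃ j ≤ k, psi D k (x.take s) ≤ - S D s (s + j) x
  | 0, s, _ => ⟨0, le_rfl, by simp [psi, S_self]⟩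
  | k + 1, s, h => by
    obtain ⟨j, hj, h1⟩ := psi_path D x k (s + 1) (by omega)
    have h2 := psi_step D k (x.take s) x[s]
    rw [← take_succ_eq x (by omega)] at h2
    rcases le_total 0 (psi D k (x.take (s + 1)) - D (x.take (s + 1))) with h3 | h3
    · refine ⟨j + 1, by omega, ?_⟩
      rw [max_eq_right h3] at h2
      have h4 := S_add D (i := s) (j := s + 1) (l := s + 1 + j) (by omega) (by omega) x
      rw [S_succ] at h4
      rw [show s + (j + 1) = s + 1 + j by ring]
      linarith
    · refine ⟨0, by omega, ?_⟩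
      rw [max_eq_left h3] at h2
      simpa [S_self] using h2

theorem psi_le_path (D : List Bool → ℝ) :
    ∀ k (p : List Bool) (t : ℝ), 0 ≤ t → psi D k p ≤ t → ∃ q : List Bool, q.length = k ∧
      ∀ j ≤ k, -t ≤ S D p.length (p.length + j) (p ++ q)
  | 0, p, t, ht, _ => ⟨[], rfl, fun j hj => by
      obtain rfl : j = 0 := by omega
      simp [S_self, ht]⟩
  | k + 1, p, t, ht, h => by
    have : ∃ b, max 0 (psi D k (p ++ [b]) - D (p ++ [b])) ≤ t := by
      rcases min_le_iff.1 h with h | h
      · exact ⟨false, h⟩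
      · exact ⟨true, h⟩
    obtain ⟨b, hb⟩ := this
    have h1 : psi D k (p ++ [b]) ≤ t + D (p ++ [b]) := by
      have := le_trans (le_max_right _ _) hb
      linarith
    have h2 : 0 ≤ t + D (p ++ [b]) := (psi_nonneg D _ _).trans h1
    obtain ⟨q, hq, h3⟩ := psi_le_path D k (p ++ [b]) _ h2 h1
    refine ⟨b :: q, by simp [hq], fun j hj => ?_⟩
    rcases j with _ | j
    · simp [S_self, ht]
    · have h4 := h3 j (by omega)
      have e : p ++ b :: q = p ++ [b] ++ q := by simp
      have h5 := S_add D (i := p.length) (j := p.length + 1) (l := p.length + 1 + j) (by omega)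
        (by omega) (p ++ [b] ++ q)
      rw [S_succ] at h5
      have h6 : (p ++ [b] ++ q).take (p.length + 1) = p ++ [b] := by
        rw [List.take_left' (by simp)]
      rw [h6] at h5
      simp only [List.length_append, List.length_singleton] at h4
      rw [e, show p.length + (j + 1) = p.length + 1 + j by ring]
      linarith

/-- The potential with the window cut at the leaves. -/
noncomputable def Psi (D : List Bool → ℝ) (m N : ℕ) (p : List Bool) : ℝ :=
  psi D (min m (N - p.length)) p

theorem Psi_nonneg (D : List Bool → ℝ) (m N : ℕ) (p : List Bool) : 0 ≤ Psi D m N p :=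
  psi_nonneg D _ _

theorem one_step (D : List Bool → ℝ) (m N : ℕ) (p : List Bool) (b : Bool) :
    D (p ++ [b]) - Psi D m N (p ++ [b]) + Psi D m N p ≤
      if Psi D m N p = 0 then max (D (p ++ [b])) 0 else 0 := by
  have h0 := Psi_nonneg D m N (p ++ [b])
  have h1 : Psi D m N p ≤ max 0 (Psi D m N (p ++ [b]) - D (p ++ [b])) := by
    unfold Psi
    rcases hl : min m (N - p.length) with _ | l
    · exact le_max_left _ _
    · refine (psi_step D l p b).trans (max_le_max le_rfl ?_)
      have : l ≤ min m (N - (p ++ [b]).length) := by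
        simp only [List.length_append, List.length_singleton]
        omega
      linarith [psi_mono D (p ++ [b]) this]
  split_ifs with h
  · rw [h]
    linarith [le_max_left (D (p ++ [b])) 0]
  · have h2 : 0 < Psi D m N p := lt_of_le_of_ne (Psi_nonneg D m N p) (Ne.symm h)
    rcases le_max_iff.1 h1 with h3 | h3 <;> linarith

/-- The potential along the path `u`. -/
noncomputable def Phi (D : List Bool → ℝ) (m N : ℕ) (u : List Bool) (k : ℕ) : ℝ :=
  S D 0 k u - Psi D m N (u.take k)

theorem Phi_total (D : List Bool → ℝ) (m N : ℕ) (u : List Bool) (hu : u.length = N) :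
    S D 0 N u ≤ Phi D m N u N - Phi D m N u 0 := by
  have h1 : Psi D m N (u.take N) = 0 := by
    unfold Psi
    simp [hu, psi]
  have h2 := Psi_nonneg D m N (u.take 0)
  unfold Phi
  rw [h1, S_self]
  linarith

theorem Phi_diff (D : List Bool → ℝ) (m N : ℕ) (u : List Bool) {s e : ℕ} (h : s ≤ e) :
    Phi D m N u e - Phi D m N u s = S D s e u - Psi D m N (u.take e) + Psi D m N (u.take s) := by
  have := S_add D (Nat.zero_le s) h u
  unfold Phi
  linarith

theorem telescope (Φ B : ℕ → ℝ) (St : ℕ → Prop) [DecidablePred St] (N : ℕ) (hN : 0 < N)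
    (h0 : St 0)
    (h : ∀ s e, St s → s ≤ e → e < N → (∀ k, s < k → k ≤ e → ¬ St k) → Φ (e + 1) - Φ s ≤ B s) :
    Φ N - Φ 0 ≤ ∑ s ∈ (range N).filter St, B s := by
  have key : ∀ e < N, ∃ s ≤ e, St s ∧ (∀ k, s < k → k ≤ e → ¬ St k) ∧
      Φ s - Φ 0 + B s ≤ ∑ s ∈ (range (e + 1)).filter St, B s := by
    intro e
    induction e with
    | zero =>
      intro _
      refine ⟨0, le_rfl, h0, fun k h1 h2 => by omega, ?_⟩
      simp [Finset.filter_singleton, h0]
    | succ e ih =>
      intro he
      obtain ⟨s, hs, hSt, hno, hb⟩ := ih (by omega)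
      rw [Finset.range_add_one (n := e + 1), Finset.filter_insert]
      by_cases hc : St (e + 1)
      · refine ⟨e + 1, le_rfl, hc, fun k h1 h2 => by omega, ?_⟩
        rw [if_pos hc, Finset.sum_insert (by simp)]
        have := h s e hSt hs (by omega) hno
        linarith
      · refine ⟨s, by omega, hSt, fun k h1 h2 => ?_, ?_⟩
        · rcases Nat.lt_or_ge k (e + 1) with h3 | h3
          · exact hno k h1 (by omega)
          · obtain rfl : k = e + 1 := by omega
            exact hc
        · rw [if_neg hc]; exact hb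
  obtain ⟨e, rfl⟩ : ∃ e, N = e + 1 := ⟨N - 1, by omega⟩
  obtain ⟨s, hs, hSt, hno, hb⟩ := key e (by omega)
  have := h s e hSt hs (by omega) hno
  linarith

open Classical in
/-- Majorant for short pieces. -/
noncomputable def G1 (D : List Bool → ℝ) (m s : ℕ) (x : List Bool) : ℝ :=
  ∑ k ∈ Ico s (min (s + 2 * m) x.length), ∑ b : Bool,
    if psi D m (x.take k) = 0 then max (D (x.take k ++ [b])) 0 else 0

open Classical in
/-- Majorant for long pieces. -/
noncomputable def G2 (D : List Bool → ℝ) (cls : ℕ → ℝ × ℝ) (m s : ℕ) (x : List Bool) : ℝ :=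
  ∑ j ∈ range (m + 1),
    ∑ e ∈ (Ico (s + 2 * m) x.length).filter (fun e => ∀ k ∈ Icc s e, cls k = cls s),
      ∑ b : Bool, max (S D (s + j) (e + 1) (x.take e ++ [b])) 0

open Classical in
/-- Majorant for pieces starting at an exceptional level. -/
noncomputable def G3 (D : List Bool → ℝ) (cls : ℕ → ℝ × ℝ) (m N : ℕ) (T : ℝ) (s : ℕ)
    (x : List Bool) : ℝ :=
  (∑ e ∈ (Ico s x.length).filter (fun e => ∀ k ∈ Icc s e, cls k = cls s),
      ∑ b : Bool, max (S D s (e + 1) (x.take e ++ [b]) - T) 0) +
    ∑ j ∈ range (min m (N - s) + 1),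
      max (- S D s (s + j) (x.take s ++ List.replicate m false) - T) 0

theorem G1_nonneg (D : List Bool → ℝ) (m s : ℕ) (x : List Bool) : 0 ≤ G1 D m s x := by
  refine Finset.sum_nonneg fun k _ => Finset.sum_nonneg fun b _ => ?_
  split_ifs
  · exact le_max_right _ _
  · exact le_rfl

theorem G2_nonneg (D : List Bool → ℝ) (cls : ℕ → ℝ × ℝ) (m s : ℕ) (x : List Bool) :
    0 ≤ G2 D cls m s x :=
  Finset.sum_nonneg fun _ _ => Finset.sum_nonneg fun _ _ => Finset.sum_nonneg fun _ _ =>
    le_max_right _ _

theorem G3_nonneg (D : List Bool → ℝ) (cls : ℕ → ℝ × ℝ) (m N : ℕ) (T : ℝ) (s : ℕ)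
    (x : List Bool) : 0 ≤ G3 D cls m N T s x :=
  add_nonneg (Finset.sum_nonneg fun _ _ => Finset.sum_nonneg fun _ _ => le_max_right _ _)
    (Finset.sum_nonneg fun _ _ => le_max_right _ _)

theorem take_of_take {u x : List Bool} {e k : ℕ} (h : u.take e = x.take e) (hk : k ≤ e) :
    u.take k = x.take k := by
  have h1 : u.take k = (u.take e).take k := by rw [List.take_take, min_eq_left hk]
  have h2 : x.take k = (x.take e).take k := by rw [List.take_take, min_eq_left hk]
  rw [h1, h2, h]

theorem S_last (D : List Bool → ℝ) {u x : List Bool} {e : ℕ} (i : ℕ) (he : e < u.length)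
    (h : u.take e = x.take e) : S D i (e + 1) u = S D i (e + 1) (x.take e ++ [u[e]]) := by
  apply S_congr
  rw [← h, ← take_succ_eq u he, List.take_take, min_self]

theorem piece12 (D : List Bool → ℝ) (cls : ℕ → ℝ × ℝ) (m N : ℕ) (u x : List Bool)
    (hu : u.length = N) {s e : ℕ} (hse : s ≤ e) (he : e < N) (hx : e < x.length)
    (h : u.take e = x.take e) (hc : ∀ k ∈ Icc s e, cls k = cls s) (hs : s + 3 * m ≤ N) :
    Phi D m N u (e + 1) - Phi D m N u s ≤ G1 D m s x + G2 D cls m s x := by
  classical
  rcases Nat.lt_or_ge e (s + 2 * m) with h1 | h1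
  · have h2 : Phi D m N u (e + 1) - Phi D m N u s =
        ∑ k ∈ Ico s (e + 1), (Phi D m N u (k + 1) - Phi D m N u k) :=
      (Finset.sum_Ico_sub _ (by omega)).symm
    have h3 : ∑ k ∈ Ico s (e + 1), (Phi D m N u (k + 1) - Phi D m N u k) ≤
        ∑ k ∈ Ico s (e + 1), ∑ b : Bool,
          if psi D m (x.take k) = 0 then max (D (x.take k ++ [b])) 0 else 0 := by
      refine Finset.sum_le_sum fun k hk => ?_
      obtain ⟨hk1, hk2⟩ := Finset.mem_Ico.1 hk
      have hku : k < u.length := by omega
      rw [Phi_diff D m N u (Nat.le_succ k), S_succ, take_succ_eq u hku,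
        take_of_take h (by omega : k ≤ e)]
      have h4 := one_step D m N (x.take k) u[k]
      have h5 : Psi D m N (x.take k) = psi D m (x.take k) := by
        unfold Psi
        congr 1
        rw [List.length_take]
        omega
      rw [h5] at h4 ⊢
      refine h4.trans ?_
      refine Finset.single_le_sum (f := fun b : Bool =>
        if psi D m (x.take k) = 0 then max (D (x.take k ++ [b])) 0 else 0) (fun b _ => ?_)
        (Finset.mem_univ _)
      split_ifs
      · exact le_max_right _ _
      · exact le_rfl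
    have h4 : ∑ k ∈ Ico s (e + 1), ∑ b : Bool,
          (if psi D m (x.take k) = 0 then max (D (x.take k ++ [b])) 0 else 0) ≤ G1 D m s x := by
      refine Finset.sum_le_sum_of_subset_of_nonneg (Finset.Ico_subset_Ico le_rfl (by omega))
        fun k _ _ => Finset.sum_nonneg fun b _ => ?_
      split_ifs
      · exact le_max_right _ _
      · exact le_rfl
    linarith [G2_nonneg D cls m s x]
  · obtain ⟨j, hj, h2⟩ := psi_path D u m s (by omega)
    have h3 : Psi D m N (u.take s) = psi D m (u.take s) := by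
      unfold Psi
      congr 1
      rw [List.length_take]
      omega
    have h4 := S_add D (i := s) (j := s + j) (l := e + 1) (by omega) (by omega) u
    have h5 := Psi_nonneg D m N (u.take (e + 1))
    have h6 : S D (s + j) (e + 1) u ≤ G2 D cls m s x := by
      rw [S_last D (s + j) (by omega) h]
      refine le_trans ?_ (Finset.single_le_sum (f := fun j => ∑ e ∈ (Ico (s + 2 * m) x.length).filter
        (fun e => ∀ k ∈ Icc s e, cls k = cls s), ∑ b : Bool,
          max (S D (s + j) (e + 1) (x.take e ++ [b])) 0)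
        (fun _ _ => Finset.sum_nonneg fun _ _ => Finset.sum_nonneg fun _ _ => le_max_right _ _)
        (Finset.mem_range.2 (by omega : j < m + 1)))
      refine le_trans ?_ (Finset.single_le_sum (f := fun e => ∑ b : Bool,
          max (S D (s + j) (e + 1) (x.take e ++ [b])) 0)
        (fun _ _ => Finset.sum_nonneg fun _ _ => le_max_right _ _)
        (Finset.mem_filter.2 ⟨Finset.mem_Ico.2 ⟨h1, hx⟩, hc⟩))
      refine le_trans (le_max_left _ 0) (Finset.single_le_sum (f := fun b : Bool =>
          max (S D (s + j) (e + 1) (x.take e ++ [b])) 0) (fun _ _ => le_max_right _ _)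
        (Finset.mem_univ _))
    rw [Phi_diff D m N u (by omega : s ≤ e + 1), h3]
    linarith [G1_nonneg D m s x]

theorem piece3 (D : List Bool → ℝ) (cls : ℕ → ℝ × ℝ) (m N : ℕ) (T : ℝ) (u x : List Bool)
    (hu : u.length = N) {s e : ℕ} (hse : s ≤ e) (he : e < N) (hx : e < x.length)
    (h : u.take e = x.take e) (hc : ∀ k ∈ Icc s e, cls k = cls s) :
    Phi D m N u (e + 1) - Phi D m N u s ≤ 2 * T + G3 D cls m N T s x := by
  classical
  have hl : (x.take s).length = s := by rw [List.length_take]; omega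
  obtain ⟨j, hj, h2⟩ := psi_path D (x.take s ++ List.replicate m false) (min m (N - s)) s
    (by rw [List.length_append, hl, List.length_replicate]; omega)
  rw [List.take_left' hl] at h2
  have h3 : Psi D m N (u.take s) = psi D (min m (N - s)) (x.take s) := by
    unfold Psi
    rw [take_of_take h hse, hl]
  have h5 := Psi_nonneg D m N (u.take (e + 1))
  have h6 : S D s (e + 1) u - T ≤
      ∑ e ∈ (Ico s x.length).filter (fun e => ∀ k ∈ Icc s e, cls k = cls s),
        ∑ b : Bool, max (S D s (e + 1) (x.take e ++ [b]) - T) 0 := by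
    rw [S_last D s (by omega) h]
    refine le_trans ?_ (Finset.single_le_sum (f := fun e => ∑ b : Bool,
        max (S D s (e + 1) (x.take e ++ [b]) - T) 0)
      (fun _ _ => Finset.sum_nonneg fun _ _ => le_max_right _ _)
      (Finset.mem_filter.2 ⟨Finset.mem_Ico.2 ⟨hse, hx⟩, hc⟩))
    refine le_trans (le_max_left _ 0) (Finset.single_le_sum (f := fun b : Bool =>
        max (S D s (e + 1) (x.take e ++ [b]) - T) 0) (fun _ _ => le_max_right _ _)
      (Finset.mem_univ _))
  have h7 : - S D s (s + j) (x.take s ++ List.replicate m false) - T ≤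
      ∑ j ∈ range (min m (N - s) + 1),
        max (- S D s (s + j) (x.take s ++ List.replicate m false) - T) 0 :=
    le_trans (le_max_left _ 0) (Finset.single_le_sum (f := fun j =>
      max (- S D s (s + j) (x.take s ++ List.replicate m false) - T) 0)
      (fun _ _ => le_max_right _ _) (Finset.mem_range.2 (by omega)))
  rw [Phi_diff D m N u (by omega : s ≤ e + 1), h3]
  unfold G3
  linarith

/-- `w` is a strict prefix of `x`. -/
def SP (w x : List Bool) : Prop := w <+: x ∧ w.length < x.length

theorem SP.of_prefix {w w' x : List Bool} (h : SP w x) (h' : w' <+: w) : SP w' x :=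
  ⟨h'.trans h.1, lt_of_le_of_lt h'.length_le h.2⟩

/-- The level `s` ancestor of `x` is first explored by query `n`, which is `x`. -/
def New (v : ℕ → List Bool) (n s : ℕ) (x : List Bool) : Prop :=
  v n = x ∧ s < x.length ∧ ∀ i, 1 ≤ i → i < n → ¬ SP (x.take s) (v i)

/-- Moreover it is the topmost such ancestor. -/
def Top (v : ℕ → List Bool) (n s : ℕ) (x : List Bool) : Prop :=
  New v n s x ∧ (s = 0 ∨ ∃ i, 1 ≤ i ∧ i < n ∧ SP (x.take (s - 1)) (v i))

theorem Top.unique {v : ℕ → List Bool} {n s s' : ℕ} {x x' : List Bool} (h : Top v n s x)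
    (h' : Top v n s' x') : s = s' ∧ x = x' := by
  obtain rfl : x = x' := h.1.1.symm.trans h'.1.1
  have key : ∀ {a b : ℕ}, Top v n a x → Top v n b x → ¬ a < b := by
    intro a b ha hb hab
    rcases hb.2 with h0 | ⟨i, hi1, hi2, hi3⟩
    · omega
    · exact ha.1.2.2 i hi1 hi2 (hi3.of_prefix (List.take_prefix_take_left (by omega)))
  have h1 := key h h'
  have h2 := key h' h
  exact ⟨by omega, rfl⟩

open Classical in
/-- The total charged gain. -/
noncomputable def W (D : List Bool → ℝ) (cls : ℕ → ℝ × ℝ) (m N : ℕ) (T : ℝ) (Λ : Finset ℕ)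
    (TN : Finset (List Bool)) (M : ℕ) (v : ℕ → List Bool) : ℝ :=
  ∑ n ∈ Icc 1 M, ∑ x ∈ TN, ∑ s ∈ range N,
    ((if Top v n s x ∧ s ∉ Λ then G1 D m s x + G2 D cls m s x else 0) +
      (if New v n s x ∧ s ∈ Λ then G3 D cls m N T s x else 0))

theorem charge (D : List Bool → ℝ) (cls : ℕ → ℝ × ℝ) (m N : ℕ) (hN : 0 < N) (T : ℝ) (hT : 0 ≤ T)
    (Λ : Finset ℕ) (hΛ1 : ∀ s < N, 1 ≤ s → cls (s - 1) ≠ cls s → s ∈ Λ)
    (hΛ2 : ∀ s < N, s ∉ Λ → s + 3 * m ≤ N) (TN : Finset (List Bool)) (M : ℕ)
    (v : ℕ → List Bool) (hv : ∀ n, 1 ≤ n → v n ∈ TN) (τ : ℕ) (hτ1 : 1 ≤ τ) (hτM : τ ≤ M)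
    (hτ : (v τ).length = N) :
    S D 0 N (v τ) ≤ 2 * T * Λ.card + W D cls m N T Λ TN M v := by
  classical
  set u := v τ with hu
  have hτu : (v τ).length = N := hτ
  have hex : ∀ k < N, ∃ n, 1 ≤ n ∧ SP (u.take k) (v n) := fun k hk =>
    ⟨τ, hτ1, List.take_prefix _ _, by rw [List.length_take]; omega⟩
  let t : ℕ → ℕ := fun k => if h : ∃ n, 1 ≤ n ∧ SP (u.take k) (v n) then Nat.find h else 0
  have ht1 : ∀ k < N, 1 ≤ t k ∧ SP (u.take k) (v (t k)) := fun k hk => by
    simp only [t, dif_pos (hex k hk)]
    exact Nat.find_spec (hex k hk)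
  have ht2 : ∀ k < N, ∀ n, 1 ≤ n → SP (u.take k) (v n) → t k ≤ n := fun k hk n h1 h2 => by
    simp only [t, dif_pos (hex k hk)]
    exact Nat.find_min' _ ⟨h1, h2⟩
  have htM : ∀ k < N, t k ≤ M := fun k hk =>
    (ht2 k hk τ hτ1 ⟨List.take_prefix _ _, by rw [List.length_take]; omega⟩).trans hτM
  have hmono : ∀ k, k + 1 < N → t k ≤ t (k + 1) := fun k hk =>
    ht2 k (by omega) _ (ht1 _ hk).1
      ((ht1 _ hk).2.of_prefix (List.take_prefix_take_left (by omega)))
  have htk : ∀ k < N, k < (v (t k)).length ∧ u.take k = (v (t k)).take k := fun k hk => by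
    have h1 := (ht1 k hk).2
    have h2 : (u.take k).length = k := by rw [List.length_take]; omega
    refine ⟨by have := h1.2; omega, ?_⟩
    have := List.prefix_iff_eq_take.1 h1.1
    rwa [h2] at this
  let St : ℕ → Prop := fun s => s = 0 ∨ t (s - 1) < t s ∨ cls (s - 1) ≠ cls s
  let Bb : ℕ → ℝ := fun s => if s ∈ Λ then G3 D cls m N T s (v (t s))
    else G1 D m s (v (t s)) + G2 D cls m s (v (t s))
  have hBb : ∀ s, 0 ≤ Bb s := fun s => by
    simp only [Bb]
    split_ifs
    · exact G3_nonneg _ _ _ _ _ _ _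
    · exact add_nonneg (G1_nonneg _ _ _ _) (G2_nonneg _ _ _ _ _)
  have htel := telescope (Phi D m N u) (fun s => (if s ∈ Λ then 2 * T else 0) + Bb s) St N hN
    (Or.inl rfl) (by
      intro s e _ hse he hno
      have hsame : ∀ k, s ≤ k → k ≤ e → t k = t s ∧ cls k = cls s := by
        intro k hk
        induction k, hk using Nat.le_induction with
        | base => exact fun _ => ⟨rfl, rfl⟩
        | succ k hk ih =>
          intro hke
          have h1 := hno (k + 1) (by omega) hke
          simp only [St, not_or, Nat.add_sub_cancel, not_lt, not_not] at h1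
          have h2 := hmono k (by omega)
          obtain ⟨h3, h4⟩ := ih (by omega)
          exact ⟨by omega, by rw [← h1.2.2, h4]⟩
      have h1 := htk e he
      rw [(hsame e hse le_rfl).1] at h1
      have hc : ∀ k ∈ Icc s e, cls k = cls s := fun k hk =>
        (hsame k (Finset.mem_Icc.1 hk).1 (Finset.mem_Icc.1 hk).2).2
      simp only [Bb]
      split_ifs with hs
      · exact piece3 D cls m N T u _ hτ hse he h1.1 h1.2 hc
      · rw [zero_add]
        exact piece12 D cls m N u _ hτ hse he h1.1 h1.2 hc (hΛ2 s (by omega) hs))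
  have h1 : ∑ s ∈ (range N).filter St, (if s ∈ Λ then 2 * T else 0) ≤ 2 * T * Λ.card := by
    rw [← Finset.sum_filter, Finset.sum_const, nsmul_eq_mul, mul_comm]
    refine mul_le_mul_of_nonneg_left ?_ (by linarith)
    exact_mod_cast Finset.card_le_card fun s hs => (Finset.mem_filter.1 hs).2
  have h2 : ∑ s ∈ (range N).filter St, Bb s ≤ W D cls m N T Λ TN M v := by
    let F : ℕ → List Bool → ℕ → ℝ := fun n x s =>
      (if Top v n s x ∧ s ∉ Λ then G1 D m s x + G2 D cls m s x else 0) +
        (if New v n s x ∧ s ∈ Λ then G3 D cls m N T s x else 0)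
    have hF : ∀ n x s, 0 ≤ F n x s := fun n x s => by
      refine add_nonneg ?_ ?_
      · split_ifs
        · exact add_nonneg (G1_nonneg _ _ _ _) (G2_nonneg _ _ _ _ _)
        · exact le_rfl
      · split_ifs
        · exact G3_nonneg _ _ _ _ _ _ _
        · exact le_rfl
    have hW : W D cls m N T Λ TN M v = ∑ s ∈ range N, ∑ n ∈ Icc 1 M, ∑ x ∈ TN, F n x s := by
      unfold W
      rw [Finset.sum_comm (s := range N)]
      refine Finset.sum_congr rfl fun n _ => ?_
      rw [Finset.sum_comm]
    rw [hW]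
    refine le_trans (Finset.sum_le_sum fun s hs => ?_)
      (Finset.sum_le_sum_of_subset_of_nonneg (Finset.filter_subset St _) fun s _ _ =>
        Finset.sum_nonneg fun n _ => Finset.sum_nonneg fun x _ => hF n x s)
    obtain ⟨hs1, hs2⟩ := Finset.mem_filter.1 hs
    have hsN := Finset.mem_range.1 hs1
    refine le_trans ?_ (Finset.single_le_sum (f := fun n => ∑ x ∈ TN, F n x s)
      (fun n _ => Finset.sum_nonneg fun x _ => hF n x s)
      (Finset.mem_Icc.2 ⟨(ht1 s hsN).1, htM s hsN⟩))
    refine le_trans ?_ (Finset.single_le_sum (f := fun x => F (t s) x s)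
      (fun x _ => hF _ x s) (hv _ (ht1 s hsN).1))
    have hnew : New v (t s) s (v (t s)) := by
      refine ⟨rfl, (htk s hsN).1, fun i hi1 hi2 hi3 => ?_⟩
      rw [← (htk s hsN).2] at hi3
      have := ht2 s hsN i hi1 hi3
      omega
    by_cases hΛ : s ∈ Λ
    · simp [Bb, F, hΛ, hnew]
    · have htop : Top v (t s) s (v (t s)) := by
        refine ⟨hnew, ?_⟩
        rcases Nat.eq_zero_or_pos s with h0 | h0
        · exact Or.inl h0
        · right
          rcases hs2 with h3 | h3 | h3
          · omega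
          · refine ⟨t (s - 1), (ht1 _ (by omega)).1, h3, ?_⟩
            rw [← take_of_take (htk s hsN).2 (Nat.sub_le s 1)]
            exact (ht1 _ (by omega)).2
          · exact absurd (hΛ1 s hsN h0 h3) hΛ
      simp [Bb, F, hΛ, htop]
  rw [Finset.sum_add_distrib] at htel
  linarith [Phi_total D m N u hτ]

end Pool.Agent.H746Z.CREM
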