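import Pool.Agent.H746Z.CREM.Beta

set_option autoImplicit false

/-! Freshness of unexplored subtrees, and the first moment bound. -/

namespace Pool.Agent.H746Z.CREM

open Finset MeasureTheory ProbabilityTheory Real
open scoped NNReal ENNReal

/-- The information after `n` queries. -/
abbrev filtL {Ω V : Type*} (q : ℕ → Ω → V) (X : V → Ω → ℝ) (U : ℕ → Ω → ℝ) (n : ℕ) :
    MeasurableSpace Ω :=
  (⨆ i ∈ Set.Icc 1 n, MeasurableSpace.comap (q i) ⊤) ⊔
    (⨆ i ∈ Set.Icc 1 n, MeasurableSpace.comap (fun ω => X (q i ω) ω) inferInstance) ⊔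
    (⨆ i ∈ Set.Icc 1 (n + 1), MeasurableSpace.comap (U i) inferInstance)

/-- Sets whose trace on `B` is measurable. -/
abbrev trace {Ω : Type*} (G : MeasurableSpace Ω) (B : Set Ω) (hB : MeasurableSet[G] B) :
    MeasurableSpace Ω where
  MeasurableSet' A := MeasurableSet[G] (A ∩ B)
  measurableSet_empty := by simp
  measurableSet_compl A hA := by
    have : Aᶜ ∩ B = B \ (A ∩ B) := by ext; simp; tauto
    rw [this]
    exact hB.diff hA
  measurableSet_iUnion f hf := by
    rw [Set.iUnion_inter]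
    exact MeasurableSet.iUnion hf

theorem filt_q {Ω V : Type*} {q : ℕ → Ω → V} {X : V → Ω → ℝ} {U : ℕ → Ω → ℝ}
    (hq : ∀ n, @Measurable Ω V (filtL q X U n) ⊤ (q (n + 1))) {n i : ℕ} (h1 : 1 ≤ i)
    (h2 : i ≤ n + 1) (E : Set V) : MeasurableSet[filtL q X U n] (q i ⁻¹' E) := by
  rcases Nat.lt_or_ge n i with h | h
  · obtain rfl : i = n + 1 := by omega
    exact hq n MeasurableSpace.measurableSet_top
  · have : MeasurableSpace.comap (q i) ⊤ ≤ filtL q X U n :=
      le_sup_of_le_left (le_sup_of_le_left (le_iSup₂ (f := fun i (_ : i ∈ Set.Icc 1 n) =>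
        MeasurableSpace.comap (q i) ⊤) i ⟨h1, h⟩))
    exact this _ ⟨E, MeasurableSpace.measurableSet_top, rfl⟩

theorem fresh {Ω V : Type*} [Countable V] {q : ℕ → Ω → V} {X : V → Ω → ℝ} {U : ℕ → Ω → ℝ}
    (hq : ∀ n, @Measurable Ω V (filtL q X U n) ⊤ (q (n + 1))) (G : MeasurableSpace Ω)
    (Good : V → Prop) (hX : ∀ y, Good y → Measurable[G] (X y)) (hU : ∀ i, Measurable[G] (U i))
    (n : ℕ) : MeasurableSet[G] {ω | ∀ i, 1 ≤ i → i ≤ n → Good (q i ω)} ∧
      ∀ A, MeasurableSet[filtL q X U n] A →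
        MeasurableSet[G] (A ∩ {ω | ∀ i, 1 ≤ i → i ≤ n → Good (q i ω)}) := by
  have step : ∀ n, ∀ hB : MeasurableSet[G] {ω | ∀ i, 1 ≤ i → i ≤ n → Good (q i ω)},
      (∀ i, 1 ≤ i → i ≤ n → ∀ E, MeasurableSet[G]
        (q i ⁻¹' E ∩ {ω | ∀ i, 1 ≤ i → i ≤ n → Good (q i ω)})) →
      filtL q X U n ≤ trace G _ hB := by
    intro n hB h
    refine sup_le (sup_le (iSup₂_le fun i hi => ?_) (iSup₂_le fun i hi => ?_))
      (iSup₂_le fun i _ => ?_)
    · rintro _ ⟨E, -, rfl⟩
      exact h i hi.1 hi.2 E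
    · rintro _ ⟨E, hE, rfl⟩
      have : (fun ω => X (q i ω) ω) ⁻¹' E ∩ {ω | ∀ i, 1 ≤ i → i ≤ n → Good (q i ω)} =
          ⋃ y : {y // Good y}, (q i ⁻¹' {y.1} ∩ {ω | ∀ i, 1 ≤ i → i ≤ n → Good (q i ω)}) ∩
            X y ⁻¹' E := by
        ext ω
        simp only [Set.mem_inter_iff, Set.mem_preimage, Set.mem_iUnion, Set.mem_singleton_iff]
        constructor
        · rintro ⟨h1, h2⟩
          exact ⟨⟨q i ω, h2 i hi.1 hi.2⟩, ⟨rfl, h2⟩, h1⟩
        · rintro ⟨y, ⟨h1, h2⟩, h3⟩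
          exact ⟨by rw [h1]; exact h3, h2⟩
      show MeasurableSet[G] _
      rw [this]
      exact MeasurableSet.iUnion fun y => (h i hi.1 hi.2 _).inter (hX y y.2 hE)
    · rintro _ ⟨E, hE, rfl⟩
      exact (hU i hE).inter hB
  induction n with
  | zero =>
    have hB : MeasurableSet[G] {ω | ∀ i, 1 ≤ i → i ≤ 0 → Good (q i ω)} := by
      have : {ω | ∀ i, 1 ≤ i → i ≤ 0 → Good (q i ω)} = Set.univ := by
        ext; simp only [Set.mem_ofPred_eq, Set.mem_univ, iff_true]; intro i h1 h2; omega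
      rw [this]; exact MeasurableSet.univ
    exact ⟨hB, step 0 hB fun i h1 h2 => by omega⟩
  | succ n ih =>
    have e : {ω | ∀ i, 1 ≤ i → i ≤ n + 1 → Good (q i ω)} =
        q (n + 1) ⁻¹' {y | Good y} ∩ {ω | ∀ i, 1 ≤ i → i ≤ n → Good (q i ω)} := by
      ext ω
      simp only [Set.mem_inter_iff, Set.mem_preimage, Set.mem_ofPred_eq]
      refine ⟨fun h => ⟨h _ (by omega) le_rfl, fun i h1 h2 => h i h1 (by omega)⟩,
        fun h i h1 h2 => ?_⟩
      rcases Nat.lt_or_ge n i with h3 | h3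
      · obtain rfl : i = n + 1 := by omega
        exact h.1
      · exact h.2 i h1 h3
    have hB : MeasurableSet[G] {ω | ∀ i, 1 ≤ i → i ≤ n + 1 → Good (q i ω)} := by
      rw [e]; exact ih.2 _ (filt_q hq (by omega) le_rfl _)
    refine ⟨hB, step (n + 1) hB fun i h1 h2 E => ?_⟩
    have := (ih.2 _ (filt_q hq h1 h2 E)).inter hB
    convert this using 1
    rw [e]
    ext; simp only [Set.mem_inter_iff]; tauto

theorem New_meas {Ω : Type*} {q : ℕ → Ω → List Bool} {X : List Bool → Ω → ℝ} {U : ℕ → Ω → ℝ}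
    (hq : ∀ n, @Measurable Ω _ (filtL q X U n) ⊤ (q (n + 1))) (G : MeasurableSpace Ω)
    {n s : ℕ} (hn : 1 ≤ n) {x : List Bool} (hX : ∀ y, ¬ SP (x.take s) y → Measurable[G] (X y))
    (hU : ∀ i, Measurable[G] (U i)) :
    MeasurableSet[G] {ω | New (fun i => q i ω) n s x} ∧
      MeasurableSet[G] {ω | Top (fun i => q i ω) n s x} := by
  obtain ⟨k, rfl⟩ : ∃ k, n = k + 1 := ⟨n - 1, by omega⟩
  have h := (fresh hq G (fun y => ¬ SP (x.take s) y) hX hU k).2
  by_cases hs : s < x.length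
  · have e : {ω | New (fun i => q i ω) (k + 1) s x} = q (k + 1) ⁻¹' {x} ∩
        {ω | ∀ i, 1 ≤ i → i ≤ k → ¬ SP (x.take s) (q i ω)} := by
      ext ω
      simp [New, hs]
    refine ⟨by rw [e]; exact h _ (filt_q hq (by omega) le_rfl _), ?_⟩
    have e2 : {ω | Top (fun i => q i ω) (k + 1) s x} = (q (k + 1) ⁻¹' {x} ∩
        ({_ω | s = 0} ∪ ⋃ i ∈ Set.Icc 1 k, q i ⁻¹' {y | SP (x.take (s - 1)) y})) ∩
        {ω | ∀ i, 1 ≤ i → i ≤ k → ¬ SP (x.take s) (q i ω)} := by
      ext ω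
      simp only [Top, New, hs, Nat.lt_succ_iff, Set.mem_ofPred_eq, Set.mem_inter_iff,
        Set.mem_preimage, Set.mem_singleton_iff, Set.mem_union, Set.mem_iUnion, Set.mem_Icc,
        exists_prop, true_and, and_assoc]
      tauto
    rw [e2]
    refine h _ ((filt_q hq (by omega) le_rfl _).inter (MeasurableSet.union ?_ ?_))
    · exact MeasurableSet.const _
    · exact MeasurableSet.biUnion (Set.to_countable _) fun i hi =>
        filt_q hq hi.1 (hi.2.trans (Nat.le_succ _)) _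
  · simp [New, Top, hs]

theorem Bd.ite {Ω : Type*} {A G : MeasurableSpace Ω} [mΩ : MeasurableSpace Ω] {P : Measure Ω}
    [IsProbabilityMeasure P] (hA : A ≤ mΩ) (hG : G ≤ mΩ) (h : Indep A G P)
    {f : Ω → ℝ} {c : ℝ} (hf : Bd P f c) (hfm : Measurable[A] f) {Q : Ω → Prop}
    {_ : ∀ ω, Decidable (Q ω)} (hQ : MeasurableSet[G] {ω | Q ω}) :
    Bd P (fun ω => if Q ω then f ω else 0) (c * P.real {ω | Q ω}) := by
  refine ⟨Measurable.ite (hG _ hQ) hf.meas measurable_const, fun ω => ?_,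
    mul_nonneg hf.cn measureReal_nonneg, ?_⟩
  · split_ifs
    · exact hf.nn ω
    · exact le_rfl
  have h1 := lintegral_mul_eq_lintegral_mul_lintegral_of_independent_measurableSpace hA hG h
    (f := fun ω => ENNReal.ofReal (f ω)) (g := {ω | Q ω}.indicator 1) hfm.ennreal_ofReal
    (Measurable.indicator measurable_const hQ)
  rw [lintegral_indicator_one (hG _ hQ)] at h1
  calc _ = ∫⁻ ω, ENNReal.ofReal (f ω) * {ω | Q ω}.indicator 1 ω ∂P := by
        refine lintegral_congr fun ω => ?_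
        by_cases hω : Q ω <;> simp [hω]
    _ ≤ _ := by
        rw [h1, ENNReal.ofReal_mul hf.cn, ofReal_measureReal]
        exact mul_le_mul_left hf.le _

variable {Ω : Type*} [mΩ : MeasurableSpace Ω] {P : Measure Ω} [IsProbabilityMeasure P]

theorem indep_sup {A B C : MeasurableSpace Ω} (hA : A ≤ mΩ) (hB : B ≤ mΩ) (hC : C ≤ mΩ)
    (h1 : Indep A B P) (h2 : Indep (A ⊔ B) C P) : Indep A (B ⊔ C) P := by
  refine IndepSets.indep (p1 := {s | MeasurableSet[A] s})
    (p2 := {s | ∃ b c, MeasurableSet[B] b ∧ MeasurableSet[C] c ∧ s = b ∩ c}) hA (sup_le hB hC)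
    (@MeasurableSpace.isPiSystem_measurableSet Ω A) ?_
    (@MeasurableSpace.generateFrom_measurableSet Ω A).symm ?_ ?_
  · rintro _ ⟨b, c, hb, hc, rfl⟩ _ ⟨b', c', hb', hc', rfl⟩ -
    exact ⟨b ∩ b', c ∩ c', hb.inter hb', hc.inter hc', Set.inter_inter_inter_comm _ _ _ _⟩
  · refine le_antisymm (sup_le (fun b hb => ?_) fun c hc => ?_)
      (MeasurableSpace.generateFrom_le ?_)
    · exact MeasurableSpace.measurableSet_generateFrom ⟨b, Set.univ, hb, .univ, by simp⟩
    · exact MeasurableSpace.measurableSet_generateFrom ⟨Set.univ, c, .univ, hc, by simp⟩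
    · rintro _ ⟨b, c, hb, hc, rfl⟩
      exact ((le_sup_left : B ≤ B ⊔ C) b hb).inter ((le_sup_right : C ≤ B ⊔ C) c hc)
  · rw [IndepSets_iff]
    rintro a _ ha ⟨b, c, hb, hc, rfl⟩
    rw [Indep_iff] at h1 h2
    have h3 := h2 (a ∩ b) c (((le_sup_left : A ≤ A ⊔ B) a ha).inter
      ((le_sup_right : B ≤ A ⊔ B) b hb)) hc
    rw [← Set.inter_assoc, h3, h1 a b ha hb, h2 b c ((le_sup_right : B ≤ A ⊔ B) b hb) hc, mul_assoc]

theorem Bd.markov {f : Ω → ℝ} {c R : ℝ} (hf : Bd P f c) (hR : 0 < R) {E : Set Ω}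
    (hE : ∀ ω ∈ E, R ≤ f ω) : P.real E ≤ c / R := by
  have h1 := (mul_meas_ge_le_lintegral (μ := P) hf.meas.ennreal_ofReal (ENNReal.ofReal R)).trans
    hf.le
  have h2 : ENNReal.ofReal R * P E ≤ ENNReal.ofReal c :=
    le_trans (mul_le_mul_right (measure_mono fun ω hω => ENNReal.ofReal_le_ofReal (hE ω hω)) _) h1
  rw [← ofReal_measureReal, ← ENNReal.ofReal_mul hR.le, ENNReal.ofReal_le_ofReal_iff hf.cn] at h2
  rw [le_div_iff₀ hR, mul_comm]
  exact h2

theorem core {cls : ℕ → ℝ × ℝ} {v : ℕ → ℝ≥0} {m : ℕ} {Sm : ℝ} {D : List Bool → Ω → ℝ}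
    (hT : Tree P D (mu cls) v) (hc : Cls cls v m Sm) {w : ℕ} (hw : 1 ≤ w)
    (hm : m = w * (16 * w ^ 2)) {N : ℕ} (hN : 0 < N) (Λ : Finset ℕ)
    (hΛ1 : ∀ s < N, 1 ≤ s → cls (s - 1) ≠ cls s → s ∈ Λ)
    (hΛ2 : ∀ s < N, s ∉ Λ → s + 3 * m ≤ N)
    (hΛ3 : ∀ s < N, s ∉ Λ → ∀ k ∈ Ico s (s + 3 * m), cls k = cls s)
    {q : ℕ → Ω → List Bool} {X : List Bool → Ω → ℝ} {U : ℕ → Ω → ℝ}
    (hU : ∀ i, Measurable (U i)) (hDU : Indep (sig D Set.univ) (sig U Set.univ) P)
    (hX : ∀ w y, ¬ SP w y → Measurable[sig D {p | ¬ SP w p}] (X y))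
    (hq : ∀ n, @Measurable Ω _ (filtL q X U n) ⊤ (q (n + 1)))
    (hlen : ∀ n ω, (q n ω).length ≤ N) (M : ℕ) {T R : ℝ} (hT0 : 0 ≤ T) (hR : 0 < R) :
    P.real {ω | ∃ n, 1 ≤ n ∧ n ≤ M ∧ (q n ω).length = N ∧
        2 * T * Λ.card + R ≤ S (fun p => D p ω) 0 N (q n ω)} ≤
      M * (32 * m ^ 2 * w * Sm * exp (-(w / 2)) +
        Λ.card * ((m + 7) * exp (3 * m) * (Sm * exp (-T / Sm)))) / R := by
  classical
  set β1 := 32 * m ^ 2 * w * Sm * exp (-(w / 2)) with hβ1
  set β3 := (m + 7) * exp (3 * m) * (Sm * exp (-T / Sm)) with hβ3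
  have hS : 0 < Sm := (hc.pos 0).trans_le (hc.le 0)
  have hβ1' : 0 ≤ β1 := by positivity
  have hβ3' : 0 ≤ β3 := by positivity
  let TN := (List.finite_length_le Bool N).toFinset
  have hind : ∀ w, Indep (sig D {p | SP w p}) (sig D {p | ¬ SP w p} ⊔ sig U Set.univ) P := by
    intro w
    refine indep_sup (sig_le hT.meas _) (sig_le hT.meas _) (sig_le hU _)
      (sig_indep hT.ind hT.meas (Set.disjoint_left.2 fun p h1 h2 => h2 h1))
      (indep_of_indep_of_le_left hDU (sup_le ?_ ?_)) <;>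
    exact biSup_mono fun _ _ => Set.mem_univ _
  have hG : ∀ w, sig D {p | ¬ SP w p} ⊔ sig U Set.univ ≤ mΩ := fun w =>
    sup_le (sig_le hT.meas _) (sig_le hU _)
  have hev : ∀ n, 1 ≤ n → ∀ s x, MeasurableSet[sig D {p | ¬ SP (x.take s) p} ⊔ sig U Set.univ]
      {ω | New (fun i => q i ω) n s x} ∧
      MeasurableSet[sig D {p | ¬ SP (x.take s) p} ⊔ sig U Set.univ]
        {ω | Top (fun i => q i ω) n s x} := fun n hn s x =>
    New_meas hq _ hn (fun y hy => (hX _ y hy).mono le_sup_left le_rfl)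
      fun i => (sig_meas U (Set.mem_univ i)).mono le_sup_right le_rfl
  have hz : ∀ c : ℝ, 0 ≤ c → Bd P (fun _ => (0 : ℝ)) c := fun c hc =>
    ⟨measurable_const, fun _ => le_rfl, hc, by simp⟩
  have hW : Bd P (fun ω => W (fun p => D p ω) cls m N T Λ TN M (fun i => q i ω))
      (M * (β1 + Λ.card * β3)) := by
    refine (Bd.sum (c := fun _ => β1 + Λ.card * β3) _ fun n hn => ?_).mono
      (by rw [Finset.sum_const, Nat.card_Icc, Nat.add_sub_cancel, nsmul_eq_mul])
    have hn1 := (Finset.mem_Icc.1 hn).1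
    refine (Bd.sum _ fun x _ => Bd.sum (c := fun s => β1 * P.real {ω | Top (fun i => q i ω) n s x} +
      if s ∈ Λ then β3 * P.real {ω | New (fun i => q i ω) n s x} else 0) _ fun s hs => ?_).mono ?_
    · have hsN := Finset.mem_range.1 hs
      refine Bd.add ?_ ?_
      · by_cases hΛ : s ∈ Λ
        · simp only [hΛ, not_true, and_false, if_false]
          exact hz _ (mul_nonneg hβ1' measureReal_nonneg)
        · simp only [hΛ, not_false_iff, and_true]
          refine Bd.ite (sig_le hT.meas _) (hG _) (hind (x.take s))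
            (hT.beta1 hc hw hm (hΛ3 s hsN hΛ) x) ?_ (hev n hn1 s x).2
          exact (@G1_meas Ω (sig D {p | SP (x.take s) p}) D s x (fun p hp => sig_meas D hp) m).add
            (@G2_meas Ω (sig D {p | SP (x.take s) p}) D s x (fun p hp => sig_meas D hp) cls m)
      · by_cases hΛ : s ∈ Λ
        · simp only [hΛ, and_true, if_true]
          by_cases hx : s ≤ x.length
          · refine Bd.ite (sig_le hT.meas _) (hG _) (hind (x.take s))
              (hT.beta3 hc N T hT0 hx) ?_ (hev n hn1 s x).1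
            exact @G3_meas Ω (sig D {p | SP (x.take s) p}) D s x hx (fun p hp => sig_meas D hp)
              cls m N T
          · have : ∀ ω, ¬ New (fun i => q i ω) n s x := fun ω h => hx h.2.1.le
            simp only [this, if_false]
            exact hz _ (mul_nonneg hβ3' measureReal_nonneg)
        · simp only [hΛ, and_false, if_false]
          exact hz _ le_rfl
    · simp only [Finset.sum_add_distrib]
      refine add_le_add ?_ ?_
      · rw [← Finset.sum_product' (f := fun x s => β1 * P.real {ω | Top (fun i => q i ω) n s x}),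
          ← Finset.mul_sum]
        refine mul_le_of_le_one_right hβ1' ((sum_measureReal_le_measureReal_univ
          (fun a _ => hG _ _ (hev n hn1 a.2 a.1).2) ?_).trans (by simp))
        intro a _ b _ hab
        refine Set.disjoint_left.2 fun ω h1 h2 => hab ?_
        have := Top.unique h1 h2
        exact Prod.ext this.2 this.1
      · rw [Finset.sum_comm]
        calc _ ≤ ∑ s ∈ range N, if s ∈ Λ then β3 else 0 := by
              refine Finset.sum_le_sum fun s _ => ?_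
              split_ifs
              · rw [← Finset.mul_sum]
                refine mul_le_of_le_one_right hβ3' ((sum_measureReal_le_measureReal_univ
                  (fun x _ => hG _ _ (hev n hn1 s x).1) ?_).trans (by simp))
                intro a _ b _ hab
                exact Set.disjoint_left.2 fun ω h1 h2 => hab (h1.1.symm.trans h2.1)
              · simp
          _ ≤ _ := by
              rw [← Finset.sum_filter, Finset.sum_const, nsmul_eq_mul]
              refine mul_le_mul_of_nonneg_right ?_ hβ3'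
              exact_mod_cast Finset.card_le_card fun s hs => (Finset.mem_filter.1 hs).2
  refine hW.markov hR ?_
  rintro ω ⟨n, h1, h2, h3, h4⟩
  have := charge (fun p => D p ω) cls m N hN T hT0 Λ hΛ1 hΛ2 TN M (fun i => q i ω)
    (fun i _ => by simpa [TN] using hlen i ω) n h1 h2 h3
  linarith

end Pool.Agent.H746Z.CREM
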