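import Pool.Agent.H746Z.CREM.Tree

set_option autoImplicit false

/-! Riemann integrability and the choice of scales. -/

namespace Pool.Agent.H746Z.CREM

open Finset MeasureTheory Real
open scoped NNReal ENNReal

theorem darboux {a : ℝ → ℝ} (ha0 : ∀ s ∈ Set.Icc (0 : ℝ) 1, 0 ≤ a s)
    (hR : ∃ I : ℝ, ∀ ε > 0, ∃ δ > 0, ∀ (r : ℕ) (t ξ : ℕ → ℝ), t 0 = 0 → t r = 1 →
      (∀ j < r, t j < t (j + 1) ∧ t (j + 1) - t j < δ ∧ t j ≤ ξ j ∧ ξ j ≤ t (j + 1)) →
      |∑ j ∈ range r, a (ξ j) * (t (j + 1) - t j) - I| < ε) {η : ℝ} (hη : 0 < η) :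
    ∃ r : ℕ, 0 < r ∧ ∃ lo hi : ℕ → ℝ,
      (∀ j < r, ∀ s ∈ Set.Icc ((j : ℝ) / r) ((j + 1) / r), lo j ≤ a s ∧ a s ≤ hi j) ∧
      ∑ j ∈ range r, (hi j - lo j) ≤ η * r := by
  obtain ⟨I, hI⟩ := hR
  obtain ⟨δ, hδ, h⟩ := hI (η / 4) (by positivity)
  obtain ⟨r0, hr0⟩ := exists_nat_one_div_lt hδ
  set r := r0 + 1 with hr
  have hr' : (0 : ℝ) < r := by positivity
  have hδr : 1 / (r : ℝ) < δ := by rw [hr]; push_cast; exact hr0
  have key : ∀ ξ : ℕ → ℝ, (∀ j < r, ξ j ∈ Set.Icc ((j : ℝ) / r) ((j + 1) / r)) →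
      |(∑ j ∈ range r, a (ξ j)) / r - I| < η / 4 := by
    intro ξ hξ
    have e : ∀ j : ℕ, ((j + 1 : ℕ) : ℝ) / r - j / r = 1 / r := fun j => by push_cast; ring
    have := h r (fun j => j / r) ξ (by simp) (div_self hr'.ne') fun j hj =>
      ⟨by have := e j; have : (0 : ℝ) < 1 / r := by positivity
          linarith, by rw [e]; exact hδr, (hξ j hj).1, by push_cast; exact (hξ j hj).2⟩
    simp only [e] at this
    rwa [← Finset.sum_mul, mul_one_div] at this
  have hsub : ∀ j < r, Set.Icc ((j : ℝ) / r) ((j + 1) / r) ⊆ Set.Icc 0 1 := fun j hj =>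
    Set.Icc_subset_Icc (by positivity) (by
      rw [div_le_one hr']; exact_mod_cast hj)
  have hleft : ∀ j : ℕ, (j : ℝ) / r ∈ Set.Icc ((j : ℝ) / r) ((j + 1) / r) := fun j =>
    ⟨le_rfl, by gcongr; linarith⟩
  have hup : ∀ j < r, ∀ s ∈ Set.Icc ((j : ℝ) / r) ((j + 1) / r), a s ≤ r * (I + η / 4) := by
    intro j hj s hs
    have hξ : ∀ i < r, Function.update (fun i : ℕ => (i : ℝ) / r) j s i ∈
        Set.Icc ((i : ℝ) / r) ((i + 1) / r) := by
      intro i _
      by_cases hij : i = j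
      · subst hij; simpa using hs
      · rw [Function.update_of_ne hij]; exact hleft i
    have h1 := (abs_lt.1 (key _ hξ)).2
    have h2 := Finset.single_le_sum (f := fun i => a (Function.update
      (fun i : ℕ => (i : ℝ) / r) j s i)) (fun i hi => ha0 _ (hsub i (Finset.mem_range.1 hi)
        (hξ i (Finset.mem_range.1 hi)))) (Finset.mem_range.2 hj)
    simp only [Function.update_self] at h2
    rw [sub_lt_iff_lt_add, div_lt_iff₀ hr'] at h1
    linarith
  have hex : ∀ j : ℕ, ∃ lo hi x y : ℝ, j < r →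
      (∀ s ∈ Set.Icc ((j : ℝ) / r) ((j + 1) / r), lo ≤ a s ∧ a s ≤ hi) ∧
      x ∈ Set.Icc ((j : ℝ) / r) ((j + 1) / r) ∧ y ∈ Set.Icc ((j : ℝ) / r) ((j + 1) / r) ∧
      a x < lo + η / 4 ∧ hi - η / 4 < a y := by
    intro j
    by_cases hj : j < r
    · have hne : (a '' Set.Icc ((j : ℝ) / r) ((j + 1) / r)).Nonempty := ⟨_, _, hleft j, rfl⟩
      obtain ⟨_, ⟨x, hx, rfl⟩, hx'⟩ := exists_lt_of_csInf_lt hne
        (lt_add_of_pos_right _ (by positivity : 0 < η / 4))
      obtain ⟨_, ⟨y, hy, rfl⟩, hy'⟩ := exists_lt_of_lt_csSup hne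
        (sub_lt_self _ (by positivity : 0 < η / 4))
      refine ⟨_, _, x, y, fun _ => ⟨fun s hs => ⟨csInf_le ⟨0, ?_⟩ (Set.mem_image_of_mem _ hs),
        le_csSup ⟨r * (I + η / 4), ?_⟩ (Set.mem_image_of_mem _ hs)⟩, hx, hy, hx', hy'⟩⟩
      · rintro _ ⟨s, hs, rfl⟩
        exact ha0 s (hsub j hj hs)
      · rintro _ ⟨s, hs, rfl⟩
        exact hup j hj s hs
    · exact ⟨0, 0, 0, 0, fun h => absurd h hj⟩
  choose lo hi x y hxy using hex
  refine ⟨r, by omega, lo, hi, fun j hj => (hxy j hj).1, ?_⟩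
  have h1 := (abs_lt.1 (key x fun j hj => (hxy j hj).2.1)).1
  have h2 := (abs_lt.1 (key y fun j hj => (hxy j hj).2.2.1)).2
  rw [sub_lt_iff_lt_add, div_lt_iff₀ hr'] at h2
  rw [lt_sub_iff_add_lt, lt_div_iff₀ hr'] at h1
  calc _ ≤ ∑ j ∈ range r, (a (y j) - a (x j) + η / 2) := by
        refine Finset.sum_le_sum fun j hj => ?_
        have := (hxy j (Finset.mem_range.1 hj)).2.2.2
        linarith [this.1, this.2]
    _ ≤ _ := by
        rw [Finset.sum_add_distrib, Finset.sum_sub_distrib]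
        simp only [Finset.sum_const, Finset.card_range, nsmul_eq_mul]
        linarith

theorem count_in (N r j : ℕ) :
    ((range N).filter (fun k => j * N ≤ k * r ∧ (k + 1) * r ≤ (j + 1) * N)).card * r ≤ N := by
  set F := (range N).filter (fun k => j * N ≤ k * r ∧ (k + 1) * r ≤ (j + 1) * N)
  rcases F.eq_empty_or_nonempty with h | h
  · simp [h]
  · have h1 := (Finset.mem_filter.1 (F.min'_mem h)).2.1
    have h2 := (Finset.mem_filter.1 (F.max'_mem h)).2.2
    have h3 : F.card ≤ (Icc (F.min' h) (F.max' h)).card :=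
      Finset.card_le_card fun k hk => Finset.mem_Icc.2 ⟨F.min'_le k hk, F.le_max' k hk⟩
    rw [Nat.card_Icc] at h3
    have h4 : F.min' h ≤ F.max' h := F.min'_le _ (F.max'_mem h)
    have h5 : (F.card + F.min' h) * r ≤ (F.max' h + 1) * r := Nat.mul_le_mul_right _ (by omega)
    nlinarith

theorem avg_bounds {a : ℝ → ℝ} (hint : IntervalIntegrable a volume 0 1) {N k : ℕ} (hk : k < N)
    {lo hi : ℝ} (h : ∀ s ∈ Set.Icc ((k : ℝ) / N) ((k + 1) / N), lo ≤ a s ∧ a s ≤ hi) :
    lo ≤ N * ∫ s in ((k : ℝ) / N)..((k + 1) / N), a s ∧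
      N * ∫ s in ((k : ℝ) / N)..((k + 1) / N), a s ≤ hi := by
  have hN : (0 : ℝ) < N := by exact_mod_cast (by omega : 0 < N)
  have hle : (k : ℝ) / N ≤ (k + 1) / N := by gcongr; linarith
  have hi' : IntervalIntegrable a volume ((k : ℝ) / N) ((k + 1) / N) := by
    refine hint.mono_set ?_
    rw [Set.uIcc_of_le hle, Set.uIcc_of_le zero_le_one]
    exact Set.Icc_subset_Icc (by positivity) (by rw [div_le_one hN]; exact_mod_cast hk)
  have h1 := intervalIntegral.integral_mono_on hle (intervalIntegrable_const (c := lo)) hi'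
    fun s hs => (h s hs).1
  have h2 := intervalIntegral.integral_mono_on hle hi' (intervalIntegrable_const (c := hi))
    fun s hs => (h s hs).2
  have e : ((k : ℝ) + 1) / N - k / N = 1 / N := by ring
  rw [intervalIntegral.integral_const, e, smul_eq_mul, one_div, inv_mul_le_iff₀ hN] at h1
  rw [intervalIntegral.integral_const, e, smul_eq_mul, one_div, le_inv_mul_iff₀ hN] at h2
  exact ⟨h1, h2⟩

theorem sqrt_int {a : ℝ → ℝ} (ha0 : ∀ s ∈ Set.Icc (0 : ℝ) 1, 0 ≤ a s)
    (hint : IntervalIntegrable a volume 0 1) : IntervalIntegrable (fun s => √(a s)) volume 0 1 := by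
  have h1 := hint.add (intervalIntegrable_const (c := (1 : ℝ)))
  rw [intervalIntegrable_iff_integrableOn_Ioc_of_le zero_le_one] at hint h1 ⊢
  refine Integrable.mono' h1 (continuous_sqrt.comp_aestronglyMeasurable hint.aestronglyMeasurable)
    ((ae_restrict_iff' measurableSet_Ioc).2 (ae_of_all _ fun s hs => ?_))
  have h2 := ha0 s ⟨hs.1.le, hs.2⟩
  rw [Real.norm_of_nonneg (sqrt_nonneg _), sqrt_le_left (by linarith)]
  nlinarith

theorem setup {a : ℝ → ℝ} (ha0 : ∀ s ∈ Set.Icc (0 : ℝ) 1, 0 ≤ a s)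
    (hint : IntervalIntegrable a volume 0 1)
    (hD : ∀ η > 0, ∃ r : ℕ, 0 < r ∧ ∃ lo hi : ℕ → ℝ,
      (∀ j < r, ∀ s ∈ Set.Icc ((j : ℝ) / r) ((j + 1) / r), lo j ≤ a s ∧ a s ≤ hi j) ∧
      ∑ j ∈ range r, (hi j - lo j) ≤ η * r)
    {B : ℝ} (hB : ∀ s ∈ Set.Icc (0 : ℝ) 1, a s ≤ B) {m : ℕ} (hm : 16 ≤ m) {η : ℝ} (hη : 0 < η)
    (hη1 : η ≤ 1) :
    ∃ L : ℕ, ∀ N : ℕ, 0 < N → ∀ v : ℕ → ℝ≥0,
      (∀ k < N, (v k : ℝ) = N * ∫ s in ((k : ℝ) / N)..((k + 1) / N), a s) →
      (∀ k, N ≤ k → v k = 0) →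
      ∃ (cls : ℕ → ℝ × ℝ) (Λ : Finset ℕ), Cls cls v m (√B + 1) ∧ Λ.card ≤ L ∧
        (∀ s < N, 1 ≤ s → cls (s - 1) ≠ cls s → s ∈ Λ) ∧ (∀ s < N, s ∉ Λ → s + 3 * m ≤ N) ∧
        (∀ s < N, s ∉ Λ → ∀ k ∈ Ico s (s + 3 * m), cls k = cls s) ∧
        ∑ k ∈ range N, (cls k).2 * (cls k).1 ≤
          N * ((th - 1 / m) * (∫ s in (0 : ℝ)..1, √(a s)) + 12 * η) + 3 * L * (√B + 1) := by
  classical
  obtain ⟨r, hr, lo0, hi0, h0, hsum0⟩ := hD (η ^ 2) (by positivity)
  have hr' : (0 : ℝ) < r := by exact_mod_cast hr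
  have hsub : ∀ j < r, Set.Icc ((j : ℝ) / r) ((j + 1) / r) ⊆ Set.Icc 0 1 := fun j hj =>
    Set.Icc_subset_Icc (by positivity) (by
      rw [div_le_one hr']; exact_mod_cast hj)
  have hleft : ∀ j : ℕ, (j : ℝ) / r ∈ Set.Icc ((j : ℝ) / r) ((j + 1) / r) := fun j =>
    ⟨le_rfl, by gcongr; linarith⟩
  let lo : ℕ → ℝ := fun j => max (lo0 j) 0
  let hi : ℕ → ℝ := fun j => min (hi0 j) B
  have h1 : ∀ j < r, ∀ s ∈ Set.Icc ((j : ℝ) / r) ((j + 1) / r), lo j ≤ a s ∧ a s ≤ hi j :=
    fun j hj s hs => ⟨max_le (h0 j hj s hs).1 (ha0 s (hsub j hj hs)),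
      le_min (h0 j hj s hs).2 (hB s (hsub j hj hs))⟩
  have hsum : ∑ j ∈ range r, (hi j - lo j) ≤ η ^ 2 * r :=
    le_trans (Finset.sum_le_sum fun j _ => sub_le_sub (min_le_left _ _) (le_max_left _ _)) hsum0
  have hlo : ∀ j, 0 ≤ lo j := fun j => le_max_right _ _
  have hhi : ∀ j, hi j ≤ B := fun j => min_le_right _ _
  have hlh : ∀ j < r, lo j ≤ hi j := fun j hj =>
    (h1 j hj _ (hleft j)).1.trans (h1 j hj _ (hleft j)).2
  have hB0 : 0 ≤ B := (ha0 0 (by simp)).trans (hB 0 (by simp))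
  let blk : ℕ → ℝ × ℝ := fun j =>
    (√(hi j) + η, if (√(hi j) + η) ^ 2 / 4 ≤ lo j then th - 1 / m else th + 1)
  have hth := th_ge
  have hth' := th_le
  have hm' : (16 : ℝ) ≤ m := by exact_mod_cast hm
  have hm1 : (1 : ℝ) / m ≤ 1 / 16 := one_div_le_one_div_of_le (by norm_num) hm'
  have hm2 : (0 : ℝ) < 1 / m := by positivity
  have hcost : ∀ j < r, (blk j).2 * (blk j).1 ≤
      (th - 1 / m) * √(lo j) + 6 * (3 / 2 * η + (hi j - lo j) / (2 * η)) := by
    intro j hj
    have e1 := sq_sqrt (hlo j)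
    have e2 := sq_sqrt ((hlo j).trans (hlh j hj))
    have e3 := sqrt_nonneg (lo j)
    have e4 : √(lo j) ≤ √(hi j) := sqrt_le_sqrt (hlh j hj)
    have e5 : √(hi j) - √(lo j) ≤ η / 2 + (hi j - lo j) / (2 * η) := by
      rw [← sub_le_iff_le_add', le_div_iff₀ (by positivity)]
      nlinarith [sq_nonneg (√(hi j) - √(lo j) - η), mul_nonneg e3 (sub_nonneg.2 e4)]
    simp only [blk]
    split_ifs with hg
    · nlinarith
    · have e6 : 2 * √(lo j) ≤ √(hi j) + η := by
        by_contra hcon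
        apply hg
        nlinarith
      nlinarith
  have hI : ∑ j ∈ range r, √(lo j) ≤ r * ∫ s in (0 : ℝ)..1, √(a s) := by
    have h2 := sqrt_int ha0 hint
    have h3 := intervalIntegral.sum_integral_adjacent_intervals (f := fun s => √(a s))
      (μ := volume) (a := fun j : ℕ => (j : ℝ) / r) (n := r) (fun j hj => h2.mono_set (by
        rw [Set.uIcc_of_le (by push_cast; exact (hleft j).2), Set.uIcc_of_le zero_le_one]
        push_cast
        exact hsub j hj))
    simp only [Nat.cast_zero, zero_div, div_self hr'.ne'] at h3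
    rw [← h3, Finset.mul_sum]
    refine Finset.sum_le_sum fun j hj => ?_
    push_cast
    exact (avg_bounds h2 (Finset.mem_range.1 hj) (lo := √(lo j)) (hi := √(hi j)) fun s hs =>
      ⟨sqrt_le_sqrt (h1 j (Finset.mem_range.1 hj) s hs).1,
        sqrt_le_sqrt (h1 j (Finset.mem_range.1 hj) s hs).2⟩).1
  have hcsum : ∑ j ∈ range r, (blk j).2 * (blk j).1 ≤
      r * ((th - 1 / m) * (∫ s in (0 : ℝ)..1, √(a s)) + 12 * η) := by
    refine (Finset.sum_le_sum fun j hj => hcost j (Finset.mem_range.1 hj)).trans ?_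
    rw [Finset.sum_add_distrib, ← Finset.mul_sum, ← Finset.mul_sum, Finset.sum_add_distrib,
      ← Finset.sum_div]
    simp only [Finset.sum_const, Finset.card_range, nsmul_eq_mul]
    have h2 : (∑ j ∈ range r, (hi j - lo j)) / (2 * η) ≤ η * r / 2 := by
      rw [div_le_iff₀ (by positivity)]
      nlinarith
    have h3 := mul_le_mul_of_nonneg_left hI (by linarith : 0 ≤ th - 1 / m)
    nlinarith
  refine ⟨(r + 1) * (3 * m + 2), fun N hN v hv hv0 => ?_⟩
  have hN' : (0 : ℝ) < N := by exact_mod_cast hN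
  let In : ℕ → ℕ → Prop := fun j k => j * N ≤ k * r ∧ (k + 1) * r ≤ (j + 1) * N
  let cls : ℕ → ℝ × ℝ := fun k =>
    if k * r / N < r ∧ In (k * r / N) k then blk (k * r / N) else (√B + 1, th + 1)
  have hIn : ∀ j k, In j k → k * r / N = j := fun j k h =>
    Nat.div_eq_of_lt_le h.1 (by have := h.2; nlinarith)
  have hcls : ∀ j < r, ∀ k, In j k → cls k = blk j := fun j hj k h => by
    simp only [cls, hIn j k h]
    rw [if_pos ⟨hj, h⟩]
  let Λ : Finset ℕ := (range (r + 1)).biUnion fun j => Icc (j * N / r - 3 * m) (j * N / r + 1)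
  have hΛ : ∀ s < N, s ∉ Λ → s + 3 * m ≤ N ∧ ∃ j < r, ∀ k, s - 1 ≤ k → k < s + 3 * m → In j k := by
    intro s hs hsΛ
    have h2 : ∀ j ≤ r, s + 3 * m < j * N / r ∨ j * N / r + 1 < s := by
      intro j hj
      by_contra hcon
      exact hsΛ (Finset.mem_biUnion.2 ⟨j, Finset.mem_range.2 (by omega),
        Finset.mem_Icc.2 ⟨by omega, by omega⟩⟩)
    constructor
    · have h3 := h2 r le_rfl
      rw [Nat.mul_div_cancel_left _ hr] at h3
      omega
    · have h3 : (s - 1) * r / N < r := by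
        rw [Nat.div_lt_iff_lt_mul hN, mul_comm r]
        exact Nat.mul_lt_mul_of_pos_right (by omega) hr
      refine ⟨_, h3, fun k hk1 hk2 => ⟨?_, ?_⟩⟩
      · exact (Nat.div_mul_le_self _ _).trans (Nat.mul_le_mul_right _ hk1)
      · rcases h2 ((s - 1) * r / N + 1) h3 with h4 | h4
        · exact le_trans (Nat.mul_le_mul_right _ (by omega)) (Nat.div_mul_le_self _ r)
        · exfalso
          have h5 := Nat.lt_div_mul_add (a := (s - 1) * r) hN
          have h6 := Nat.lt_div_mul_add (a := ((s - 1) * r / N + 1) * N) hr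
          have h7 : (((s - 1) * r / N + 1) * N / r + 1) * r ≤ (s - 1) * r :=
            Nat.mul_le_mul_right _ (by omega)
          nlinarith
  have hcard : Λ.card ≤ (r + 1) * (3 * m + 2) := by
    refine (Finset.card_biUnion_le_card_mul _ _ (3 * m + 2) fun j _ => ?_).trans (by simp)
    rw [Nat.card_Icc]
    omega
  have hvin : ∀ j < r, ∀ k, In j k → lo j ≤ v k ∧ v k ≤ hi j := by
    intro j hj k h
    have hk : k < N := by
      have h2 := h.2
      have h3 : (j + 1) * N ≤ r * N := Nat.mul_le_mul_right _ hj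
      by_contra hcon
      have : N * r ≤ k * r := Nat.mul_le_mul_right _ (by omega)
      nlinarith
    rw [hv k hk]
    refine avg_bounds hint hk fun s hs => h1 j hj s ⟨le_trans ?_ hs.1, hs.2.trans ?_⟩
    · rw [div_le_div_iff₀ hr' hN']; exact_mod_cast h.1
    · rw [div_le_div_iff₀ hN' hr']; exact_mod_cast h.2
  have hvB : ∀ k, (v k : ℝ) ≤ B := by
    intro k
    rcases Nat.lt_or_ge k N with hk | hk
    · rw [hv k hk]
      refine (avg_bounds hint hk (lo := 0) fun s hs => ?_).2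
      have : s ∈ Set.Icc (0 : ℝ) 1 := ⟨le_trans (by positivity) hs.1, hs.2.trans (by
        rw [div_le_one hN']; exact_mod_cast hk)⟩
      exact ⟨ha0 s this, hB s this⟩
    · rw [hv0 k hk]; exact hB0
  have hC : Cls cls v m (√B + 1) := by
    refine ⟨fun k => ?_, fun k => ?_, fun k => ?_, fun k => ?_, hm⟩
    · simp only [cls, blk]
      split_ifs <;> positivity
    · simp only [cls, blk]
      have := sqrt_le_sqrt (hhi (k * r / N))
      split_ifs <;> linarith
    · by_cases h : k * r / N < r ∧ In (k * r / N) k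
      · rw [hcls _ h.1 k h.2]
        have h2 := (hvin _ h.1 k h.2).2
        have e2 := sq_sqrt ((hlo _).trans (hlh _ h.1))
        have := sqrt_nonneg (hi (k * r / N))
        simp only [blk]
        nlinarith
      · simp only [cls, if_neg h]
        have := sq_sqrt hB0
        have := sqrt_nonneg B
        have := hvB k
        nlinarith
    · by_cases h : k * r / N < r ∧ In (k * r / N) k
      · rw [hcls _ h.1 k h.2]
        simp only [blk]
        split_ifs with hg
        · exact Or.inl ⟨rfl, hg.trans (hvin _ h.1 k h.2).1⟩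
        · exact Or.inr rfl
      · simp only [cls, if_neg h, or_true]
  refine ⟨cls, Λ, hC, hcard, fun s hs hs1 hne => ?_, fun s hs h => (hΛ s hs h).1,
    fun s hs h k hk => ?_, ?_⟩
  · by_contra hcon
    obtain ⟨j, hj, h2⟩ := (hΛ s hs hcon).2
    exact hne ((hcls j hj _ (h2 _ le_rfl (by omega))).trans
      (hcls j hj _ (h2 _ (by omega) (by omega))).symm)
  · obtain ⟨j, hj, h2⟩ := (hΛ s hs h).2
    have := Finset.mem_Ico.1 hk
    exact (hcls j hj _ (h2 _ (by omega) (by omega))).trans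
      (hcls j hj _ (h2 _ (by omega) (by omega))).symm
  · have hbn : ∀ j, 0 ≤ (blk j).2 * (blk j).1 := fun j => by
      simp only [blk]
      refine mul_nonneg ?_ (by positivity)
      split_ifs <;> linarith
    have hS : 0 ≤ √B + 1 := by positivity
    calc _ ≤ ∑ k ∈ range N, ((∑ j ∈ range r, if In j k then (blk j).2 * (blk j).1 else 0) +
          if k ∈ Λ then 3 * (√B + 1) else 0) := by
          refine Finset.sum_le_sum fun k hk => ?_
          have h2 : ∀ j ∈ range r, 0 ≤ if In j k then (blk j).2 * (blk j).1 else 0 := by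
            intro j _
            split_ifs
            · exact hbn j
            · exact le_rfl
          by_cases h : k ∈ Λ
          · rw [if_pos h]
            have h3 : (cls k).2 * (cls k).1 ≤ 3 * (√B + 1) :=
              mul_le_mul (by linarith [hC.kap_le k]) (hC.le k) (hC.pos k).le (by norm_num)
            linarith [Finset.sum_nonneg h2]
          · rw [if_neg h, add_zero]
            obtain ⟨j, hj, h3⟩ := (hΛ k (Finset.mem_range.1 hk) h).2
            have h4 := h3 k (by omega) (by omega)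
            refine le_trans (le_of_eq ?_) (Finset.single_le_sum h2 (Finset.mem_range.2 hj))
            rw [if_pos h4, hcls j hj k h4]
      _ ≤ _ := by
          rw [Finset.sum_add_distrib, Finset.sum_comm]
          refine add_le_add ?_ ?_
          · calc _ ≤ ∑ j ∈ range r, N / r * ((blk j).2 * (blk j).1) := by
                  refine Finset.sum_le_sum fun j _ => ?_
                  rw [← Finset.sum_filter, Finset.sum_const, nsmul_eq_mul]
                  refine mul_le_mul_of_nonneg_right ?_ (hbn j)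
                  rw [le_div_iff₀ hr']
                  exact_mod_cast count_in N r j
              _ ≤ N / r * (r * ((th - 1 / m) * (∫ s in (0 : ℝ)..1, √(a s)) + 12 * η)) := by
                  rw [← Finset.mul_sum]
                  exact mul_le_mul_of_nonneg_left hcsum (by positivity)
              _ = _ := by field_simp
          · rw [← Finset.sum_filter, Finset.sum_const, nsmul_eq_mul]
            have h2 : (((range N).filter (· ∈ Λ)).card : ℝ) ≤ ((r + 1) * (3 * m + 2) : ℕ) := by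
              exact_mod_cast (Finset.card_le_card fun s hs => (Finset.mem_filter.1 hs).2).trans
                hcard
            nlinarith

end Pool.Agent.H746Z.CREM
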