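import Pool.Agent.H746Z.CREM.Bridge
import Pool.Agent.H746Z.CREM.Riem

set_option autoImplicit false

/-! Choice of the parameters. -/

namespace Pool.Agent.H746Z.CREM

open Finset MeasureTheory ProbabilityTheory Real Filter Topology Asymptotics
open scoped NNReal ENNReal

theorem exists_w {K ε : ℝ} (hε : 0 < ε) :
    ∃ w : ℕ, 1 ≤ w ∧ K * ((w : ℝ) ^ 10 * exp (-(w / 2))) ≤ ε := by
  have h1 : Tendsto (fun w : ℕ => (w : ℝ) / 2) atTop atTop :=
    tendsto_natCast_atTop_atTop.atTop_div_const (by norm_num)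
  have h2 := ((tendsto_pow_mul_exp_neg_atTop_nhds_zero 10).comp h1).const_mul (K * 2 ^ 10)
  rw [mul_zero] at h2
  obtain ⟨w, h3, h4⟩ := ((h2.eventually (ge_mem_nhds hε)).and (eventually_ge_atTop 1)).exists
  refine ⟨w, h4, le_trans (le_of_eq ?_) h3⟩
  simp only [Function.comp]
  ring

theorem exists_T {K ε Sm : ℝ} (hε : 0 < ε) (hS : 0 < Sm) :
    ∃ T : ℝ, 0 ≤ T ∧ K * exp (-T / Sm) ≤ ε := by
  have h1 : Tendsto (fun T : ℝ => -T / Sm) atTop atBot :=
    tendsto_neg_atTop_atBot.atBot_div_const hS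
  have h2 := (tendsto_exp_atBot.comp h1).const_mul K
  rw [mul_zero] at h2
  obtain ⟨T, h3, h4⟩ := ((h2.eventually (ge_mem_nhds hε)).and (eventually_ge_atTop 0)).exists
  exact ⟨T, h4, h3⟩

theorem main {a : ℝ → ℝ} (ha0 : ∀ s ∈ Set.Icc (0 : ℝ) 1, 0 ≤ a s)
    (hR : ∃ I : ℝ, ∀ ε > 0, ∃ δ > 0, ∀ (r : ℕ) (t ξ : ℕ → ℝ), t 0 = 0 → t r = 1 →
      (∀ j < r, t j < t (j + 1) ∧ t (j + 1) - t j < δ ∧ t j ≤ ξ j ∧ ξ j ≤ t (j + 1)) →
      |∑ j ∈ range r, a (ξ j) * (t (j + 1) - t j) - I| < ε)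
    (h1 : ∫ s in (0 : ℝ)..1, a s = 1) {g : ℕ → ℝ} (hg : g =o[atTop] fun N : ℕ => (N : ℝ))
    {Ω : ℕ → Type*} [∀ N, MeasurableSpace (Ω N)] (P : ∀ N, Measure (Ω N))
    (X : ∀ N, {v : List Bool // v.length ≤ N} → Ω N → ℝ) (hG : ∀ N, IsGaussianProcess (X N) (P N))
    (hXm : ∀ N v, Measurable (X N v)) (h0 : ∀ N v, ∫ ω, X N v ω ∂P N = 0)
    (hcov : ∀ N v w, ∫ ω, X N v ω * X N w ω ∂P N =
      N * ∫ s in (0 : ℝ)..((lcp v.1 w.1 : ℝ) / N), a s)
    (U : ∀ N, ℕ → Ω N → ℝ) (hU : ∀ N i, Measurable (U N i))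
    (hXU : ∀ N, IndepFun (fun ω v => X N v ω) (fun ω i => U N i ω) (P N))
    (q : ∀ N, ℕ → Ω N → {v : List Bool // v.length ≤ N})
    (hq : ∀ N n, @Measurable (Ω N) _ (filtL (q N) (X N) (U N) n) ⊤ (q N (n + 1)))
    {C : ℝ} (hC : 0 < C) :
    Tendsto (fun N : ℕ => P N {ω | ∃ n : ℕ, 1 ≤ n ∧ (n : ℝ) ≤ C * N ∧ (q N n ω).1.length = N ∧
      (√(2 * log 2) * ∫ s in (0 : ℝ)..1, √(a s)) * N - g N ≤ X N (q N n ω) ω}) atTop (𝓝 0) := by
  have hP := fun N => (hG N).isProbabilityMeasure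
  have hint : IntervalIntegrable a volume 0 1 :=
    intervalIntegral.intervalIntegrable_of_integral_ne_zero (by rw [h1]; exact one_ne_zero)
  have hD := fun η (hη : η > 0) => darboux ha0 hR hη
  obtain ⟨B, hB⟩ : ∃ B, ∀ s ∈ Set.Icc (0 : ℝ) 1, a s ≤ B := by
    obtain ⟨r, hr, lo, hi, h2, -⟩ := hD 1 one_pos
    have hr' : (0 : ℝ) < r := by exact_mod_cast hr
    refine ⟨∑ j ∈ range r, |hi j|, fun s hs => ?_⟩
    obtain ⟨j, hj, h3⟩ : ∃ j < r, s ∈ Set.Icc ((j : ℝ) / r) ((j + 1) / r) := by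
      rcases eq_or_lt_of_le hs.2 with h | h
      · obtain ⟨k, rfl⟩ : ∃ k, r = k + 1 := ⟨r - 1, by omega⟩
        refine ⟨k, by omega, ?_⟩
        rw [h]
        push_cast at hr' ⊢
        exact ⟨by rw [div_le_one hr']; linarith, by rw [div_self hr'.ne']⟩
      · have h4 : 0 ≤ s * r := mul_nonneg hs.1 hr'.le
        refine ⟨⌊s * r⌋₊, (Nat.floor_lt h4).2 (by nlinarith), ?_, ?_⟩
        · rw [div_le_iff₀ hr']; exact Nat.floor_le h4
        · rw [le_div_iff₀ hr']; exact (Nat.lt_floor_add_one _).le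
    exact (h2 j hj s h3).2.trans ((le_abs_self _).trans (Finset.single_le_sum
      (f := fun j => |hi j|) (fun _ _ => abs_nonneg _) (Finset.mem_range.2 hj)))
  set I := ∫ s in (0 : ℝ)..1, √(a s) with hI
  have hS : 0 < √B + 1 := by positivity
  have hI0 : 0 < I := by
    have h2 := intervalIntegral.integral_mono_on zero_le_one hint
      ((sqrt_int ha0 hint).const_mul √B) fun s hs => by
        calc a s = √(a s) * √(a s) := (mul_self_sqrt (ha0 s hs)).symm
          _ ≤ √B * √(a s) := mul_le_mul_of_nonneg_right (sqrt_le_sqrt (hB s hs)) (sqrt_nonneg _)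
    rw [h1, intervalIntegral.integral_const_mul, ← hI] at h2
    by_contra hcon
    have := mul_nonpos_of_nonneg_of_nonpos (sqrt_nonneg B) (not_lt.1 hcon)
    linarith
  suffices h : ∀ ε > 0, ∀ᶠ N : ℕ in atTop, (P N).real {ω | ∃ n : ℕ, 1 ≤ n ∧ (n : ℝ) ≤ C * N ∧
      (q N n ω).1.length = N ∧ (√(2 * log 2) * I) * N - g N ≤ X N (q N n ω) ω} ≤ ε by
    rw [← ENNReal.tendsto_toReal_zero_iff (fun N => measure_ne_top _ _), tendsto_order]
    refine ⟨fun b hb => Eventually.of_forall fun N => hb.trans_le ENNReal.toReal_nonneg,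
      fun b hb => (h (b / 2) (by positivity)).mono fun N hN => lt_of_le_of_lt hN (by linarith)⟩
  intro ε hε
  obtain ⟨w, hw, hwε⟩ := exists_w (K := 4 * C * (32 * 4096) * (√B + 1) / I) (half_pos hε)
  have hw' : (1 : ℝ) ≤ w := by exact_mod_cast hw
  obtain ⟨m, hm⟩ : ∃ m : ℕ, m = w * (16 * w ^ 2) := ⟨_, rfl⟩
  have hm16 : 16 ≤ m := by
    rw [hm]
    have : 1 ≤ w ^ 2 := Nat.one_le_pow _ _ hw
    nlinarith
  have hm' : (0 : ℝ) < m := by exact_mod_cast (by omega : 0 < m)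
  have hmw : (m : ℝ) = 16 * w ^ 3 := by rw [hm]; push_cast; ring
  obtain ⟨L, hL⟩ := setup ha0 hint hD hB hm16 (η := min 1 (I / (24 * m))) (by positivity)
    (min_le_left _ _)
  obtain ⟨T, hT0, hTε⟩ := exists_T (K := 4 * C * m * (L * ((m + 7) * exp (3 * m) * (√B + 1))) / I)
    (half_pos hε) hS
  have hev1 := hg.def (show 0 < I / (8 * m) by positivity)
  have hev2 : ∀ᶠ N : ℕ in atTop, 2 * T * L + 3 * L * (√B + 1) ≤ I / (8 * m) * N :=
    (tendsto_natCast_atTop_atTop.const_mul_atTop (by positivity)).eventually_ge_atTop _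
  filter_upwards [hev1, hev2, eventually_gt_atTop 0] with N hN1 hN2 hN
  have hN' : (0 : ℝ) < N := by exact_mod_cast hN
  let f : ℕ → ℝ := fun k => N * ∫ s in (0 : ℝ)..((k : ℝ) / N), a s
  obtain ⟨cls, Λ, hc, hcard, hΛ1, hΛ2, hΛ3, hsum⟩ := hL N hN
    (fun k => (f (min N (k + 1)) - f (min N k)).toNNReal) (fun k hk => by
      have hi : ∀ l ≤ N, IntervalIntegrable a volume 0 ((l : ℝ) / N) := fun l hl =>
        hint.mono_set (by
          rw [Set.uIcc_of_le (by positivity), Set.uIcc_of_le zero_le_one]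
          exact Set.Icc_subset_Icc le_rfl (by rw [div_le_one hN']; exact_mod_cast hl))
      have h2 : f (min N (k + 1)) - f (min N k) =
          N * ∫ s in ((k : ℝ) / N)..((k + 1) / N), a s := by
        rw [min_eq_right (by omega), min_eq_right (by omega)]
        simp only [f]
        rw [← mul_sub, intervalIntegral.integral_interval_sub_left (hi _ hk) (hi _ hk.le)]
        push_cast
        rfl
      rw [h2, Real.coe_toNNReal]
      refine (avg_bounds hint hk (lo := 0) (hi := B) fun s hs => ?_).1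
      have : s ∈ Set.Icc (0 : ℝ) 1 := ⟨le_trans (by positivity) hs.1, hs.2.trans (by
        rw [div_le_one hN']; exact_mod_cast hk)⟩
      exact ⟨ha0 s this, hB s this⟩)
    (fun k hk => by rw [min_eq_left (by omega), min_eq_left hk]; simp)
  have hcard' : (Λ.card : ℝ) ≤ L := by exact_mod_cast hcard
  have h2 := core2 hN (hG N) (hXm N) (h0 N) f (by simp [f]) (hcov N) hc hw hm Λ hΛ1 hΛ2 hΛ3 (hU N)
    (hXU N) (hq N) ⌊C * N⌋₊ hT0 (show 0 < N * I / (4 * m) by positivity)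
  refine le_trans (measureReal_mono ?_) (h2.trans ?_)
  · rintro ω ⟨n, h3, h4, h5, h6⟩
    refine ⟨n, h3, Nat.le_floor h4, h5, le_trans ?_ h6⟩
    have h7 : g N ≤ I / (8 * m) * N := by
      rw [Real.norm_natCast, Real.norm_eq_abs] at hN1
      exact (le_abs_self _).trans hN1
    have h8 : 2 * T * Λ.card ≤ 2 * T * L := by gcongr
    have h9 : (N : ℝ) * (12 * min 1 (I / (24 * m))) ≤ N * (12 * (I / (24 * m))) := by
      gcongr; exact min_le_right _ _
    have h10 : (N : ℝ) * ((th - 1 / m) * I + 12 * min 1 (I / (24 * m))) =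
        th * I * N - 8 * (I / (8 * m) * N) + N * (12 * min 1 (I / (24 * m))) := by
      field_simp
    have h11 : (N : ℝ) * (12 * (I / (24 * m))) = 4 * (I / (8 * m) * N) := by
      field_simp; ring
    have h12 : (N : ℝ) * I / (4 * m) = 2 * (I / (8 * m) * N) := by
      field_simp; ring
    show _ ≤ th * I * N - g N
    linarith
  · have h3 : (⌊C * N⌋₊ : ℝ) ≤ C * N := Nat.floor_le (by positivity)
    calc _ ≤ C * N * (32 * m ^ 2 * w * (√B + 1) * exp (-(w / 2)) +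
          L * ((m + 7) * exp (3 * m) * ((√B + 1) * exp (-T / (√B + 1))))) / (N * I / (4 * m)) := by
          gcongr
      _ = 4 * C * (32 * 4096) * (√B + 1) / I * ((w : ℝ) ^ 10 * exp (-(w / 2))) +
          4 * C * m * (L * ((m + 7) * exp (3 * m) * (√B + 1))) / I * exp (-T / (√B + 1)) := by
          generalize exp (3 * (m : ℝ)) = e3
          rw [hmw]
          field_simp
          ring
      _ ≤ ε := by linarith

end Pool.Agent.H746Z.CREM
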