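import Mathlib

set_option autoImplicit false

/-! Estimates for Gaussian walks with independent steps. -/

namespace Pool.Agent.H746Z.CREM

open Finset MeasureTheory ProbabilityTheory Real
open scoped NNReal ENNReal

theorem g_exp (μ : ℝ) (v : ℝ≥0) (t : ℝ) :
    ∫⁻ x, ENNReal.ofReal (exp (t * x)) ∂gaussianReal μ v =
      ENNReal.ofReal (exp (μ * t + v * t ^ 2 / 2)) := by
  rw [← ofReal_integral_eq_lintegral_ofReal (integrable_exp_mul_gaussianReal t)
    (ae_of_all _ fun x => (exp_pos _).le)]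
  congr 1
  exact congrFun (mgf_fun_id_gaussianReal (μ := μ) (v := v)) t

theorem g_strip (μ : ℝ) {v : ℝ≥0} (hv : v ≠ 0) (t h : ℝ) :
    ∫⁻ x, (Set.Icc (-h) h).indicator (fun x => ENNReal.ofReal (exp (t * x))) x
      ∂gaussianReal μ v ≤
      ENNReal.ofReal (exp (μ * t + v * t ^ 2 / 2) * (2 * h / √(2 * π * v))) := by
  have hv' : (0 : ℝ) < v := by positivity
  rw [gaussianReal_of_var_ne_zero _ hv, lintegral_withDensity_eq_lintegral_mul _
    (measurable_gaussianPDF μ v) (Measurable.indicator (by fun_prop) measurableSet_Icc)]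
  calc _ ≤ ∫⁻ x, (Set.Icc (-h) h).indicator
          (fun _ => ENNReal.ofReal (exp (μ * t + v * t ^ 2 / 2) * (√(2 * π * v))⁻¹)) x := by
        refine lintegral_mono fun x => ?_
        by_cases hx : x ∈ Set.Icc (-h) h
        · simp only [Pi.mul_apply, Set.indicator_of_mem hx, gaussianPDF]
          rw [← ENNReal.ofReal_mul (gaussianPDFReal_nonneg _ _ _)]
          refine ENNReal.ofReal_le_ofReal ?_
          unfold gaussianPDFReal
          rw [mul_assoc, ← exp_add, mul_comm]
          refine mul_le_mul_of_nonneg_right (exp_le_exp.2 ?_) (by positivity)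
          have : μ * t + v * t ^ 2 / 2 - (-(x - μ) ^ 2 / (2 * v) + t * x) =
              (x - μ - v * t) ^ 2 / (2 * v) := by
            field_simp
            ring
          have h2 : 0 ≤ (x - μ - v * t) ^ 2 / (2 * (v : ℝ)) := by positivity
          linarith
        · simp [Set.indicator_of_notMem hx]
    _ = _ := by
        rw [lintegral_indicator_const measurableSet_Icc, Real.volume_Icc,
          ← ENNReal.ofReal_mul (by positivity)]
        congr 1
        ring

variable {Ω : Type*} [MeasurableSpace Ω] {P : Measure Ω}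

/-- The sigma-algebra generated by part of a family. -/
abbrev sig {ι : Type*} (Z : ι → Ω → ℝ) (A : Set ι) : MeasurableSpace Ω :=
  ⨆ i ∈ A, MeasurableSpace.comap (Z i) inferInstance

theorem sig_le {ι : Type*} {Z : ι → Ω → ℝ} (hm : ∀ i, Measurable (Z i)) (A : Set ι) :
    sig Z A ≤ ‹MeasurableSpace Ω› :=
  iSup₂_le fun i _ => (hm i).comap_le

omit [MeasurableSpace Ω] in
theorem sig_meas {ι : Type*} (Z : ι → Ω → ℝ) {A : Set ι} {i : ι} (hi : i ∈ A) :
    Measurable[sig Z A] (Z i) :=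
  Measurable.of_comap_le (le_iSup₂ (f := fun i (_ : i ∈ A) =>
    MeasurableSpace.comap (Z i) inferInstance) i hi)

theorem sig_indep {ι : Type*} {Z : ι → Ω → ℝ} (hi : iIndepFun Z P) (hm : ∀ i, Measurable (Z i))
    {A B : Set ι} (h : Disjoint A B) : Indep (sig Z A) (sig Z B) P :=
  indep_iSup_of_disjoint (fun i => (hm i).comap_le) ((iIndepFun_iff_iIndep _ _ _).1 hi) h

/-- Independent Gaussian steps. -/
structure Walk (P : Measure Ω) (Z : ℕ → Ω → ℝ) (μ : ℕ → ℝ) (v : ℕ → ℝ≥0) : Prop where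
  ind : iIndepFun Z P
  meas : ∀ k, Measurable (Z k)
  law : ∀ k, P.map (Z k) = gaussianReal (μ k) (v k)

variable [IsProbabilityMeasure P] {Z : ℕ → Ω → ℝ} {μ : ℕ → ℝ} {v : ℕ → ℝ≥0}

theorem Walk.law_sum (h : Walk P Z μ v) (F : Finset ℕ) :
    P.map (fun ω => ∑ k ∈ F, Z k ω) = gaussianReal (∑ k ∈ F, μ k) (∑ k ∈ F, v k) := by
  classical
  induction F using Finset.induction_on with
  | empty => simp
  | insert a F ha ih =>
    have h1 := (h.ind.indepFun_finsetSum_of_notMem h.meas ha).symm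
    have h2 : (∑ j ∈ F, Z j) = fun ω => ∑ k ∈ F, Z k ω := by
      ext ω; simp
    rw [h2] at h1
    have := gaussianReal_add_gaussianReal_of_indepFun h1 (h.law a) ih
    simp only [Finset.sum_insert ha]
    exact this

omit [IsProbabilityMeasure P] in
theorem Walk.meas_sum (h : Walk P Z μ v) (F : Finset ℕ) :
    Measurable (fun ω => ∑ k ∈ F, Z k ω) :=
  Finset.measurable_fun_sum _ fun k _ => h.meas k

theorem Walk.exp_sum (h : Walk P Z μ v) (F : Finset ℕ) (t : ℝ) :
    ∫⁻ ω, ENNReal.ofReal (exp (t * ∑ k ∈ F, Z k ω)) ∂P =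
      ENNReal.ofReal (exp (∑ k ∈ F, (μ k * t + v k * t ^ 2 / 2))) := by
  have := g_exp (∑ k ∈ F, μ k) (∑ k ∈ F, v k) t
  rw [← h.law_sum F, lintegral_map (by fun_prop) (h.meas_sum F)] at this
  rw [this]
  congr 2
  rw [Finset.sum_add_distrib, Finset.sum_mul, NNReal.coe_sum, Finset.sum_mul, Finset.sum_div]

theorem Walk.pos_part (h : Walk P Z μ v) (F : Finset ℕ) (e T σ : ℝ) (hσ : 0 < σ) :
    ∫⁻ ω, ENNReal.ofReal (max (e * (∑ k ∈ F, Z k ω) - T) 0) ∂P ≤
      ENNReal.ofReal (σ * exp (-T / σ) *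
        exp (∑ k ∈ F, (μ k * (e / σ) + v k * (e / σ) ^ 2 / 2))) := by
  rw [ENNReal.ofReal_mul (by positivity), ← h.exp_sum F, ← lintegral_const_mul' _ _ (by simp)]
  refine lintegral_mono fun ω => ?_
  rw [← ENNReal.ofReal_mul (by positivity)]
  refine ENNReal.ofReal_le_ofReal (max_le ?_ (by positivity))
  rw [mul_assoc, ← exp_add]
  have h1 := add_one_le_exp (-T / σ + e / σ * ∑ k ∈ F, Z k ω)
  have h2 : e * (∑ k ∈ F, Z k ω) - T = σ * (-T / σ + e / σ * ∑ k ∈ F, Z k ω) := by
    field_simp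
    ring
  rw [h2]
  exact mul_le_mul_of_nonneg_left (by linarith) hσ.le

theorem Walk.tail (h : Walk P Z μ v) (F : Finset ℕ) (a t : ℝ) (ht : 0 ≤ t) :
    P {ω | a ≤ ∑ k ∈ F, Z k ω} ≤
      ENNReal.ofReal (exp (-(t * a)) * exp (∑ k ∈ F, (μ k * t + v k * t ^ 2 / 2))) := by
  rw [ENNReal.ofReal_mul (by positivity), ← h.exp_sum F, ← lintegral_const_mul' _ _ (by simp),
    ← lintegral_indicator_one (measurableSet_le measurable_const (h.meas_sum F))]
  refine lintegral_mono fun ω => ?_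
  by_cases hω : ω ∈ {ω | a ≤ ∑ k ∈ F, Z k ω}
  · rw [Set.indicator_of_mem hω, ← ENNReal.ofReal_mul (by positivity), ← exp_add]
    have : a ≤ ∑ k ∈ F, Z k ω := hω
    simp only [Pi.one_apply, ENNReal.one_le_ofReal, one_le_exp_iff]
    nlinarith
  · simp [Set.indicator_of_notMem hω]

theorem Walk.strip (h : Walk P Z μ v) (s b q : ℕ) (t a c : ℝ) (ht : 0 ≤ t)
    (hc : ∀ i < q, ∑ k ∈ Ico (s + i * b) (s + (i + 1) * b), v k ≠ 0 ∧
      exp (∑ k ∈ Ico (s + i * b) (s + (i + 1) * b), (μ k * t + v k * t ^ 2 / 2)) *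
        (2 * a / √(2 * π * ∑ k ∈ Ico (s + i * b) (s + (i + 1) * b), (v k : ℝ))) ≤ c) :
    P {ω | 0 ≤ ∑ k ∈ Ico s (s + q * b), Z k ω ∧
      ∀ i < q, |∑ k ∈ Ico (s + i * b) (s + (i + 1) * b), Z k ω| ≤ a} ≤ ENNReal.ofReal c ^ q := by
  let f : ℝ → ℝ≥0∞ := (Set.Icc (-a) a).indicator (fun x => ENNReal.ofReal (exp (t * x)))
  have hf : Measurable f := Measurable.indicator (by fun_prop) measurableSet_Icc
  let Y : ℕ → Ω → ℝ := fun i ω => ∑ k ∈ Ico (s + i * b) (s + (i + 1) * b), Z k ω
  have key : ∀ n ≤ q, ∫⁻ ω, ∏ i ∈ range n, f (Y i ω) ∂P ≤ ENNReal.ofReal c ^ n := by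
    intro n
    induction n with
    | zero => intro _; simp
    | succ n ih =>
      intro hn
      simp only [Finset.prod_range_succ]
      rw [lintegral_mul_eq_lintegral_mul_lintegral_of_independent_measurableSpace
        (sig_le h.meas (Set.Iio (s + n * b))) (sig_le h.meas (Set.Ici (s + n * b)))
        (sig_indep h.ind h.meas (Set.Iio_disjoint_Ici le_rfl)), pow_succ]
      · refine mul_le_mul' (ih (by omega)) ?_
        have h1 := g_strip (∑ k ∈ Ico (s + n * b) (s + (n + 1) * b), μ k) (hc n (by omega)).1 t a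
        rw [← h.law_sum, lintegral_map hf (h.meas_sum _)] at h1
        refine h1.trans (ENNReal.ofReal_le_ofReal (le_trans (le_of_eq ?_) (hc n (by omega)).2))
        rw [Finset.sum_add_distrib, Finset.sum_mul, NNReal.coe_sum, Finset.sum_mul, Finset.sum_div]
      · refine Finset.measurable_fun_prod _ fun i hi => hf.comp ?_
        refine Finset.measurable_fun_sum _ fun k hk => sig_meas Z ?_
        have h1 := (Finset.mem_Ico.1 hk).2
        have h2 : (i + 1) * b ≤ n * b := Nat.mul_le_mul_right _ (Finset.mem_range.1 hi)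
        simp only [Set.mem_Iio]
        omega
      · refine hf.comp ?_
        exact Finset.measurable_fun_sum _ fun k hk => sig_meas Z (Finset.mem_Ico.1 hk).1
  refine le_trans ?_ (key q le_rfl)
  have hsum : ∀ ω n, ∑ k ∈ Ico s (s + n * b), Z k ω = ∑ i ∈ range n, Y i ω := by
    intro ω n
    induction n with
    | zero => simp
    | succ n ih =>
      rw [Finset.sum_range_succ, ← ih]
      exact (Finset.sum_Ico_consecutive _ (by omega) (by nlinarith)).symm
  refine meas_le_lintegral₀ (Measurable.aemeasurable ?_) fun ω hω => ?_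
  · exact Finset.measurable_fun_prod _ fun i _ => hf.comp (h.meas_sum _)
  · have h1 : ∏ i ∈ range q, f (Y i ω) = ENNReal.ofReal (exp (t * ∑ i ∈ range q, Y i ω)) := by
      rw [Finset.mul_sum, Real.exp_sum, ENNReal.ofReal_prod_of_nonneg fun _ _ => (exp_pos _).le]
      refine Finset.prod_congr rfl fun i hi => ?_
      have h2 : Y i ω ∈ Set.Icc (-a) a := abs_le.1 (hω.2 i (Finset.mem_range.1 hi))
      exact Set.indicator_of_mem h2 _
    rw [h1, ← hsum]
    simp only [ENNReal.one_le_ofReal, one_le_exp_iff]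
    exact mul_nonneg ht hω.1

end Pool.Agent.H746Z.CREM
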