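import Pool.Agent.H746Z.CREM.Det
import Pool.Agent.H746Z.CREM.Walk

set_option autoImplicit false

/-! Estimates on the tree. -/

namespace Pool.Agent.H746Z.CREM

open Finset MeasureTheory ProbabilityTheory Real
open scoped NNReal ENNReal

/-- The speed constant. -/
noncomputable def th : ℝ := √(2 * log 2)

theorem th_sq : th ^ 2 = 2 * log 2 := sq_sqrt (by have := log_two_gt_d9; linarith)

theorem th_ge : 11 / 10 ≤ th := le_sqrt_of_sq_le (by have := log_two_gt_d9; linarith)

theorem th_le : th ≤ 6 / 5 := sqrt_le_iff.2 ⟨by norm_num, by have := log_two_lt_d9; linarith⟩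

variable {Ω : Type*} [MeasurableSpace Ω] {P : Measure Ω}

theorem S_meas {D : List Bool → Ω → ℝ} {w : List Bool} (hD : ∀ p, SP w p → Measurable (D p))
    {y : List Bool} (hy : w <+: y) {i j : ℕ} (hi : w.length ≤ i) (hj : j ≤ y.length) :
    Measurable fun ω => S (fun p => D p ω) i j y := by
  refine Finset.measurable_fun_sum _ fun k hk => hD _ ?_
  obtain ⟨h1, h2⟩ := Finset.mem_Ico.1 hk
  refine ⟨List.prefix_take_iff.2 ⟨hy, by omega⟩, ?_⟩
  rw [List.length_take]
  omega

theorem SP_snoc {w q : List Bool} (h : w <+: q) (b : Bool) : SP w (q ++ [b]) :=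
  ⟨h.trans (List.prefix_append _ _), by have := h.length_le; simp; omega⟩

theorem psi_meas {D : List Bool → Ω → ℝ} {w : List Bool} (hD : ∀ p, SP w p → Measurable (D p)) :
    ∀ (k : ℕ) (q : List Bool), w <+: q → Measurable fun ω => psi (fun p => D p ω) k q
  | 0, _, _ => measurable_const
  | k + 1, q, h => by
    have h1 := fun b : Bool => psi_meas hD k (q ++ [b]) (h.trans (List.prefix_append _ _))
    have h2 := fun b : Bool => hD _ (SP_snoc h b)
    exact (measurable_const.max ((h1 false).sub (h2 false))).min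
      (measurable_const.max ((h1 true).sub (h2 true)))

theorem G1_meas {D : List Bool → Ω → ℝ} {s : ℕ} {x : List Bool}
    (hD : ∀ p, SP (x.take s) p → Measurable (D p)) (m : ℕ) :
    Measurable fun ω => G1 (fun p => D p ω) m s x := by
  refine Finset.measurable_fun_sum _ fun k hk => Finset.measurable_fun_sum _ fun b _ => ?_
  have h1 : x.take s <+: x.take k := List.take_prefix_take_left (Finset.mem_Ico.1 hk).1
  exact Measurable.ite (measurableSet_eq_fun (psi_meas hD m _ h1) measurable_const)
    ((hD _ (SP_snoc h1 b)).max measurable_const) measurable_const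

theorem G2_meas {D : List Bool → Ω → ℝ} {s : ℕ} {x : List Bool}
    (hD : ∀ p, SP (x.take s) p → Measurable (D p)) (cls : ℕ → ℝ × ℝ) (m : ℕ) :
    Measurable fun ω => G2 (fun p => D p ω) cls m s x := by
  refine Finset.measurable_fun_sum _ fun j _ => Finset.measurable_fun_sum _ fun e he =>
    Finset.measurable_fun_sum _ fun b _ => Measurable.max ?_ measurable_const
  obtain ⟨h1, h2⟩ := Finset.mem_Ico.1 (Finset.mem_filter.1 he).1
  have h3 : x.take s <+: x.take e := List.take_prefix_take_left (by omega)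
  refine S_meas hD (SP_snoc h3 b).1 ?_ ?_ <;> simp <;> omega

theorem G3_meas {D : List Bool → Ω → ℝ} {s : ℕ} {x : List Bool} (hs : s ≤ x.length)
    (hD : ∀ p, SP (x.take s) p → Measurable (D p)) (cls : ℕ → ℝ × ℝ) (m N : ℕ) (T : ℝ) :
    Measurable fun ω => G3 (fun p => D p ω) cls m N T s x := by
  refine Measurable.add (Finset.measurable_fun_sum _ fun e he =>
    Finset.measurable_fun_sum _ fun b _ => Measurable.max (Measurable.sub_const ?_ _)
      measurable_const) (Finset.measurable_fun_sum _ fun j hj => Measurable.max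
        (Measurable.sub_const (Measurable.neg ?_) _) measurable_const)
  · obtain ⟨h1, h2⟩ := Finset.mem_Ico.1 (Finset.mem_filter.1 he).1
    have h3 : x.take s <+: x.take e := List.take_prefix_take_left (by omega)
    refine S_meas hD (SP_snoc h3 b).1 ?_ ?_ <;> simp <;> omega
  · have := Finset.mem_range.1 hj
    refine S_meas hD (List.prefix_append _ _) ?_ ?_ <;> simp <;> omega

/-- Independent Gaussian edge weights. -/
structure Tree (P : Measure Ω) (D : List Bool → Ω → ℝ) (μ : ℕ → ℝ) (v : ℕ → ℝ≥0) : Prop where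
  ind : iIndepFun D P
  meas : ∀ p, Measurable (D p)
  law : ∀ p, p ≠ [] → P.map (D p) = gaussianReal (μ (p.length - 1)) (v (p.length - 1))

/-- An infinite ray through `x`. -/
def ray (x : List Bool) (k : ℕ) : List Bool := (x ++ List.replicate (k + 1) false).take (k + 1)

theorem ray_length (x : List Bool) (k : ℕ) : (ray x k).length = k + 1 := by
  simp [ray]

theorem ray_eq {x : List Bool} {k : ℕ} (h : k < x.length) : ray x k = x.take (k + 1) :=
  List.take_append_of_le_length h

theorem Tree.walk {D : List Bool → Ω → ℝ} {μ : ℕ → ℝ} {v : ℕ → ℝ≥0} (h : Tree P D μ v)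
    (x : List Bool) : Walk P (fun k => D (ray x k)) μ v where
  ind := h.ind.precomp (g := ray x) fun a b hab => by
    have := congrArg List.length hab
    simpa [ray_length] using this
  meas k := h.meas _
  law k := by
    rw [h.law _ (by intro h0; have := ray_length x k; simp [h0] at this), ray_length]
    rfl

omit [MeasurableSpace Ω] in
theorem S_eq (D : List Bool → Ω → ℝ) {x : List Bool} (i : ℕ) {j : ℕ} (hj : j ≤ x.length) (ω : Ω) :
    S (fun p => D p ω) i j x = ∑ k ∈ Ico i j, D (ray x k) ω :=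
  Finset.sum_congr rfl fun k hk => by rw [ray_eq (by have := (Finset.mem_Ico.1 hk).2; omega)]

/-- Scales and slopes of the levels. -/
structure Cls (cls : ℕ → ℝ × ℝ) (v : ℕ → ℝ≥0) (m : ℕ) (Sm : ℝ) : Prop where
  pos : ∀ k, 0 < (cls k).1
  le : ∀ k, (cls k).1 ≤ Sm
  var : ∀ k, (v k : ℝ) ≤ (cls k).1 ^ 2
  kap : ∀ k, ((cls k).2 = th - 1 / m ∧ (cls k).1 ^ 2 / 4 ≤ v k) ∨ (cls k).2 = th + 1
  big : 16 ≤ m

/-- The drift. -/
def mu (cls : ℕ → ℝ × ℝ) (k : ℕ) : ℝ := -((cls k).2 * (cls k).1)

variable {cls : ℕ → ℝ × ℝ} {v : ℕ → ℝ≥0} {m : ℕ} {Sm : ℝ} {D : List Bool → Ω → ℝ}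

theorem Cls.kap_ge (hc : Cls cls v m Sm) (k : ℕ) : 1 ≤ (cls k).2 := by
  have h1 : (16 : ℝ) ≤ m := by exact_mod_cast hc.big
  have h2 : (1 : ℝ) / m ≤ 1 / 16 := one_div_le_one_div_of_le (by norm_num) h1
  have := th_ge
  rcases hc.kap k with h | h
  · rw [h.1]; linarith
  · rw [h]; linarith

theorem Cls.kap_le (hc : Cls cls v m Sm) (k : ℕ) : (cls k).2 ≤ 11 / 5 := by
  have h2 : (0 : ℝ) ≤ 1 / m := by positivity
  have := th_le
  rcases hc.kap k with h | h
  · rw [h.1]; linarith
  · rw [h]; linarith

theorem Cls.expo (hc : Cls cls v m Sm) {i l s : ℕ} (h : ∀ k ∈ Ico i (i + l), cls k = cls s)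
    (u : ℝ) :
    ∑ k ∈ Ico i (i + l), (mu cls k * (u / (cls s).1) + v k * (u / (cls s).1) ^ 2 / 2) ≤
      l * (-((cls s).2 * u) + u ^ 2 / 2) := by
  refine (Finset.sum_le_card_nsmul _ _ (-((cls s).2 * u) + u ^ 2 / 2) fun k hk => ?_).trans
    (by rw [Nat.card_Ico, Nat.add_sub_cancel_left, nsmul_eq_mul])
  have h1 := hc.var k
  have h2 := hc.pos s
  unfold mu
  rw [h k hk] at h1 ⊢
  have h3 : (v k : ℝ) * (u / (cls s).1) ^ 2 ≤ (cls s).1 ^ 2 * (u / (cls s).1) ^ 2 :=
    mul_le_mul_of_nonneg_right h1 (by positivity)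
  have h4 : (cls s).1 ^ 2 * (u / (cls s).1) ^ 2 = u ^ 2 := by field_simp
  have h5 : -((cls s).2 * (cls s).1) * (u / (cls s).1) = -((cls s).2 * u) := by field_simp
  linarith

variable [IsProbabilityMeasure P]

theorem Tree.E1 (hT : Tree P D (mu cls) v) (hc : Cls cls v m Sm) {i l s : ℕ} {x : List Bool}
    (hx : i + l ≤ x.length) (h : ∀ k ∈ Ico i (i + l), cls k = cls s) (T : ℝ) :
    ∫⁻ ω, ENNReal.ofReal (max (S (fun p => D p ω) i (i + l) x - T) 0) ∂P ≤
      ENNReal.ofReal ((cls s).1 * exp (-T / (cls s).1) * exp (-(l / 2))) := by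
  have h1 := (hT.walk x).pos_part (Ico i (i + l)) 1 T _ (hc.pos s)
  simp only [one_mul] at h1
  simp only [S_eq D i hx]
  refine h1.trans (ENNReal.ofReal_le_ofReal ?_)
  have h2 := hc.pos s
  refine mul_le_mul_of_nonneg_left (exp_le_exp.2 ((hc.expo h 1).trans ?_)) (by positivity)
  have h3 := hc.kap_ge s
  have h4 : (0 : ℝ) ≤ l := by positivity
  nlinarith

theorem Tree.E2 (hT : Tree P D (mu cls) v) (hc : Cls cls v m Sm) {i l : ℕ} {x : List Bool}
    (hx : i + l ≤ x.length) (hl : l ≤ m) (T : ℝ) :
    ∫⁻ ω, ENNReal.ofReal (max (- S (fun p => D p ω) i (i + l) x - T) 0) ∂P ≤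
      ENNReal.ofReal (Sm * exp (-T / Sm) * exp (3 * m)) := by
  have hS : 0 < Sm := (hc.pos 0).trans_le (hc.le 0)
  have h1 := (hT.walk x).pos_part (Ico i (i + l)) (-1) T _ hS
  simp only [neg_one_mul] at h1
  simp only [S_eq D i hx]
  refine h1.trans (ENNReal.ofReal_le_ofReal ?_)
  refine mul_le_mul_of_nonneg_left (exp_le_exp.2 ?_) (by positivity)
  refine (Finset.sum_le_card_nsmul _ _ 3 fun k _ => ?_).trans ?_
  · have h2 := hc.pos k
    have h3 := hc.le k
    have h4 := hc.var k
    have h5 := hc.kap_le k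
    have h6 := hc.kap_ge k
    have h7 : (cls k).1 / Sm ≤ 1 := (div_le_one hS).2 h3
    have h8 : 0 ≤ (cls k).1 / Sm := by positivity
    have h9 : mu cls k * (-1 / Sm) = (cls k).2 * ((cls k).1 / Sm) := by
      unfold mu; field_simp
    have h10 : (v k : ℝ) * (-1 / Sm) ^ 2 ≤ ((cls k).1 / Sm) ^ 2 := by
      have : ((cls k).1 / Sm) ^ 2 = (cls k).1 ^ 2 * (-1 / Sm) ^ 2 := by field_simp
      rw [this]
      exact mul_le_mul_of_nonneg_right h4 (by positivity)
    rw [h9]
    nlinarith
  · have : (l : ℝ) ≤ m := by exact_mod_cast hl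
    simp
    linarith

theorem Tree.tail (hT : Tree P D (mu cls) v) (hc : Cls cls v m Sm) {i l s : ℕ} {x : List Bool}
    (hx : i + l ≤ x.length) (h : ∀ k ∈ Ico i (i + l), cls k = cls s) (a : ℝ) :
    P {ω | a * (cls s).1 ≤ S (fun p => D p ω) i (i + l) x} ≤
      ENNReal.ofReal (exp (-(th * a) + l * (th * (th - (cls s).2))) * exp (-(l * log 2))) := by
  have h0 := hc.pos s
  have h0' := th_ge
  have h1 := (hT.walk x).tail (Ico i (i + l)) (a * (cls s).1) (th / (cls s).1) (by positivity)
  simp only [S_eq D i hx]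
  refine h1.trans (ENNReal.ofReal_le_ofReal ?_)
  rw [← exp_add, ← exp_add]
  refine exp_le_exp.2 ?_
  have h2 := hc.expo h th
  have h3 : th / (cls s).1 * (a * (cls s).1) = th * a := by field_simp
  have h4 : log 2 = th ^ 2 / 2 := by rw [th_sq]; ring
  rw [h3, h4]
  nlinarith

omit [IsProbabilityMeasure P] in
theorem union_len (l : ℕ) (E : List Bool → Set Ω) (c : ℝ)
    (h : ∀ q, q.length = l → P (E q) ≤ ENNReal.ofReal (c * exp (-(l * log 2)))) :
    P {ω | ∃ q, q.length = l ∧ ω ∈ E q} ≤ ENNReal.ofReal c := by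
  calc _ ≤ P (⋃ f : Fin l → Bool, E (List.ofFn f)) := by
        refine measure_mono ?_
        rintro ω ⟨q, rfl, hq⟩
        exact Set.mem_iUnion.2 ⟨q.get, by rwa [List.ofFn_get]⟩
    _ ≤ ∑ f : Fin l → Bool, P (E (List.ofFn f)) := measure_iUnion_fintype_le _ _
    _ ≤ (Finset.univ : Finset (Fin l → Bool)).card • ENNReal.ofReal (c * exp (-(l * log 2))) :=
        Finset.sum_le_card_nsmul _ _ _ fun f _ => h _ (by simp)
    _ = _ := by
        rw [← ENNReal.ofReal_nsmul]
        congr 1
        have : exp (-(l * log 2)) = (2 ^ l)⁻¹ := by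
          rw [exp_neg, exp_nat_mul, exp_log (by norm_num)]
        rw [this]
        simp
        field_simp

theorem Tree.strip (hT : Tree P D (mu cls) v) (hc : Cls cls v m Sm) {w : ℕ} (hw : 1 ≤ w)
    (hm : m = w * (16 * w ^ 2)) {i s : ℕ} {x : List Bool} (hx : i + m ≤ x.length)
    (h : ∀ k ∈ Ico i (i + m), cls k = cls s) (hg : (cls s).2 = th - 1 / m) :
    P {ω | ∀ j ≤ m, 0 ≤ S (fun p => D p ω) i (i + j) x ∧
        S (fun p => D p ω) i (i + j) x ≤ w * (cls s).1} ≤
      ENNReal.ofReal (exp th * exp (-(w * log 2)) * exp (-(m * log 2))) := by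
  have h0 := hc.pos s
  have h0' := th_ge
  have hw' : (1 : ℝ) ≤ w := by exact_mod_cast hw
  set b := 16 * w ^ 2 with hb
  have hbm : ∀ n < w, (n + 1) * b ≤ m := fun n hn => by
    rw [hm]; exact Nat.mul_le_mul_right _ hn
  have h1 := (hT.walk x).strip i b w (th / (cls s).1) (w * (cls s).1)
    (exp (b * (-log 2 + th / m)) / 2) (by positivity) (by
      intro n hn
      have e : i + (n + 1) * b = i + n * b + b := by ring
      have hk : ∀ k ∈ Ico (i + n * b) (i + n * b + b), cls k = cls s := fun k hk => h k (by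
        have := hbm n hn
        have := Finset.mem_Ico.1 hk
        refine Finset.mem_Ico.2 ⟨by omega, by omega⟩)
      have h2 : 4 * (w * (cls s).1) ^ 2 ≤ ∑ k ∈ Ico (i + n * b) (i + n * b + b), (v k : ℝ) := by
        refine le_trans (le_of_eq ?_) (Finset.card_nsmul_le_sum _ _ ((cls s).1 ^ 2 / 4)
          fun k hk' => ?_)
        · simp [hb]; ring
        · rcases hc.kap k with h3 | h3
          · rw [← hk k hk']; exact h3.2
          · rw [hk k hk', hg] at h3
            have : (0 : ℝ) ≤ 1 / m := by positivity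
            linarith
      rw [e]
      have h5 : 0 < w * (cls s).1 := by positivity
      refine ⟨fun h3 => ?_, ?_⟩
      · rw [← NNReal.coe_sum, h3] at h2
        simp only [NNReal.coe_zero] at h2
        nlinarith
      · have h3 := hc.expo hk th
        have h4 : 4 * (w * (cls s).1) ≤
            √(2 * π * ∑ k ∈ Ico (i + n * b) (i + n * b + b), (v k : ℝ)) := by
          refine le_sqrt_of_sq_le ?_
          have := pi_gt_three
          nlinarith
        rw [div_eq_mul_inv _ (2 : ℝ)]
        refine mul_le_mul (exp_le_exp.2 (h3.trans (le_of_eq ?_))) ?_ (by positivity)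
          (by positivity)
        · have h4 : log 2 = th ^ 2 / 2 := by rw [th_sq]; ring
          rw [hg, h4]; ring
        · rw [div_le_iff₀ (by linarith)]
          linarith)
  refine le_trans (measure_mono fun ω hω => ?_) (h1.trans (le_of_eq ?_))
  · refine ⟨?_, fun n hn => ?_⟩
    · rw [← hm, ← S_eq D i hx]
      exact (hω m le_rfl).1
    · have h2 := hbm n hn
      have h3 : n * b ≤ (n + 1) * b := Nat.mul_le_mul_right _ (by omega)
      rw [← S_eq D _ (by omega)]
      have h4 := S_add (fun p => D p ω) (i := i) (j := i + n * b) (l := i + (n + 1) * b)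
        (by omega) (by omega) x
      have h5 := hω (n * b) (by omega)
      have h6 := hω ((n + 1) * b) h2
      rw [abs_le]
      constructor <;> linarith [h5.1, h5.2, h6.1, h6.2]
  · rw [← ENNReal.ofReal_pow (by positivity)]
    congr 1
    have h2 : exp (-(w * log 2)) = (2 ^ w)⁻¹ := by
      rw [exp_neg, exp_nat_mul, exp_log (by norm_num)]
    have h3 : (m : ℝ) = w * b := by rw [hm]; push_cast; ring
    have h4 : (0 : ℝ) < b := by rw [hb]; positivity
    rw [div_pow, ← exp_nat_mul, h2, mul_right_comm, ← exp_add, div_eq_mul_inv]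
    congr 2
    rw [h3]
    field_simp
    ring

theorem Tree.E3 (hT : Tree P D (mu cls) v) (hc : Cls cls v m Sm) {w : ℕ} (hw : 1 ≤ w)
    (hm : m = w * (16 * w ^ 2)) {s : ℕ} {p : List Bool}
    (h : ∀ k ∈ Ico p.length (p.length + m), cls k = cls s) :
    P {ω | psi (fun p => D p ω) m p = 0} ≤ ENNReal.ofReal (4 * m * exp (-(w / 2))) := by
  have h0 := hc.pos s
  have h0' := th_ge
  have h0'' := th_le
  have hw' : (1 : ℝ) ≤ w := by exact_mod_cast hw
  have hm' : (16 : ℝ) ≤ m := by exact_mod_cast hc.big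
  have hwm : (w : ℝ) ≤ m := by
    have : w ≤ m := by rw [hm]; exact Nat.le_mul_of_pos_right _ (by positivity)
    exact_mod_cast this
  have hE := exp_pos (-((w : ℝ) / 2))
  rcases hc.kap s with hg | hg
  · have h1 : ∀ l ≤ m, P {ω | ∃ q : List Bool, q.length = l ∧ ω ∈ {ω | w * (cls s).1 ≤
        S (fun p => D p ω) p.length (p.length + l) (p ++ q)}} ≤
        ENNReal.ofReal (3 * exp (-(w / 2))) := by
      intro l hl
      refine union_len l _ _ fun q hq => ?_
      refine (hT.tail hc (by simp [hq]) (fun k hk => h k ?_) w).trans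
        (ENNReal.ofReal_le_ofReal (mul_le_mul_of_nonneg_right ?_ (exp_pos _).le))
      · have := Finset.mem_Ico.1 hk
        exact Finset.mem_Ico.2 ⟨by omega, by omega⟩
      · have h2 : (l : ℝ) * (th * (th - (cls s).2)) ≤ th := by
          have h3 : (l : ℝ) / m ≤ 1 := (div_le_one (by linarith)).2 (by exact_mod_cast hl)
          have : (l : ℝ) * (th * (th - (cls s).2)) = th * (l / m) := by rw [hg.1]; ring
          rw [this]
          nlinarith
        calc _ ≤ exp (1 + -(w / 2)) := exp_le_exp.2 (by nlinarith)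
          _ ≤ _ := by
            rw [exp_add]
            exact mul_le_mul_of_nonneg_right (by have := exp_one_lt_d9; linarith) hE.le
    have h2 : P {ω | ∃ q : List Bool, q.length = m ∧ ω ∈ {ω | ∀ j ≤ m,
        0 ≤ S (fun p => D p ω) p.length (p.length + j) (p ++ q) ∧
        S (fun p => D p ω) p.length (p.length + j) (p ++ q) ≤ w * (cls s).1}} ≤
        ENNReal.ofReal (9 * exp (-(w / 2))) := by
      refine union_len m _ _ fun q hq => ?_
      refine (hT.strip hc hw hm (by simp [hq]) h hg.1).trans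
        (ENNReal.ofReal_le_ofReal (mul_le_mul_of_nonneg_right ?_ (exp_pos _).le))
      refine mul_le_mul ?_ (exp_le_exp.2 ?_) (exp_pos _).le (by norm_num)
      · calc exp th ≤ exp (1 + 1) := exp_le_exp.2 (by linarith)
          _ ≤ 9 := by
            rw [exp_add]
            have := exp_one_lt_d9
            have := exp_pos 1
            nlinarith
      · have := log_two_gt_d9
        nlinarith
    calc _ ≤ P ((⋃ l ∈ range (m + 1), {ω | ∃ q : List Bool, q.length = l ∧ ω ∈ {ω | w * (cls s).1 ≤
          S (fun p => D p ω) p.length (p.length + l) (p ++ q)}}) ∪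
          {ω | ∃ q : List Bool, q.length = m ∧ ω ∈ {ω | ∀ j ≤ m,
          0 ≤ S (fun p => D p ω) p.length (p.length + j) (p ++ q) ∧
          S (fun p => D p ω) p.length (p.length + j) (p ++ q) ≤ w * (cls s).1}}) := by
          refine measure_mono fun ω hω => ?_
          obtain ⟨q, hq, h3⟩ := psi_le_path _ m p 0 le_rfl (le_of_eq hω)
          by_cases h4 : ∀ j ≤ m, S (fun p => D p ω) p.length (p.length + j) (p ++ q) ≤
            w * (cls s).1
          · exact Or.inr ⟨q, hq, fun j hj => ⟨by simpa using h3 j hj, h4 j hj⟩⟩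
          · push Not at h4
            obtain ⟨j, hj, h5⟩ := h4
            refine Or.inl (Set.mem_biUnion (Finset.mem_coe.2 (Finset.mem_range.2
              (by omega : j < m + 1))) ⟨q.take j, by simp; omega, ?_⟩)
            refine h5.le.trans (le_of_eq (S_congr _ ?_))
            simp [List.take_append, List.take_take]
      _ ≤ (range (m + 1)).card • ENNReal.ofReal (3 * exp (-(w / 2))) +
          ENNReal.ofReal (9 * exp (-(w / 2))) := by
          refine (measure_union_le _ _).trans (add_le_add ?_ h2)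
          refine (measure_biUnion_finset_le _ _).trans (Finset.sum_le_card_nsmul _ _ _ ?_)
          exact fun l hl => h1 l (by have := Finset.mem_range.1 hl; omega)
      _ ≤ _ := by
          rw [← ENNReal.ofReal_nsmul, ← ENNReal.ofReal_add (by positivity) (by positivity)]
          refine ENNReal.ofReal_le_ofReal ?_
          simp only [Finset.card_range, nsmul_eq_mul]
          push_cast
          nlinarith
  · calc _ ≤ P {ω | ∃ q : List Bool, q.length = m ∧ ω ∈ {ω | 0 * (cls s).1 ≤
          S (fun p => D p ω) p.length (p.length + m) (p ++ q)}} := by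
          refine measure_mono fun ω hω => ?_
          obtain ⟨q, hq, h3⟩ := psi_le_path _ m p 0 le_rfl (le_of_eq hω)
          exact ⟨q, hq, by simpa using h3 m le_rfl⟩
      _ ≤ _ := by
          refine union_len m _ _ fun q hq => ?_
          refine (hT.tail hc (by simp [hq]) h 0).trans
            (ENNReal.ofReal_le_ofReal (mul_le_mul_of_nonneg_right ?_ (exp_pos _).le))
          calc _ ≤ exp (-(w / 2)) := exp_le_exp.2 (by rw [hg]; nlinarith)
            _ ≤ _ := by nlinarith

end Pool.Agent.H746Z.CREM
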